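import Pool.Agent.Helper84.Coh.Chain

/-!
The algebraic part of the trivialization.
-/

namespace Pool.Agent.Helper84.Coh

open Set Filter

/-- Region below the graph. -/
def Ig (f : ℕ → ℕ) : Set (ℕ × ℕ) := {p | p.2 ≤ f p.1}

lemma Ig_mono {f g : ℕ → ℕ} (h : f ≤ g) : Ig f ⊆ Ig g := fun p hp => le_trans hp (h p.1)

/-- eventual domination -/
def LeStar (f g : ℕ → ℕ) : Prop := ∀ᶠ k in atTop, f k ≤ g k

lemma LeStar.trans {f g h : ℕ → ℕ} (h1 : LeStar f g) (h2 : LeStar g h) : LeStar f h := by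
  filter_upwards [h1, h2] with k a b using a.trans b

lemma LeStar.of_le {f g : ℕ → ℕ} (h : f ≤ g) : LeStar f g := Eventually.of_forall h

lemma Ig_diff_finite {f g : ℕ → ℕ} (h : LeStar f g) : (Ig f \ Ig g).Finite := by
  obtain ⟨N, hN⟩ := eventually_atTop.1 h
  have : (⋃ i ∈ Finset.range N, (fun j => (i, j)) '' (Set.Iic (f i))).Finite := by
    refine Set.Finite.biUnion (Finset.finite_toSet _) fun i _ => (Set.finite_Iic _).image _
  refine this.subset ?_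
  rintro ⟨i, j⟩ ⟨h1, h2⟩
  have hi : i < N := by
    by_contra hcon
    push Not at hcon
    exact h2 (le_trans h1 (hN i hcon))
  simp only [mem_iUnion]
  exact ⟨i, Finset.mem_range.2 hi, j, h1, rfl⟩

/-- functions vanishing at almost all points of `Ig m` -/
def ZF (m : ℕ → ℕ) : Submodule ℤ (ℕ × ℕ → ℤ) where
  carrier := {g | {p | p ∈ Ig m ∧ g p ≠ 0}.Finite}
  zero_mem' := by simp
  add_mem' := by
    intro a b ha hb
    refine (ha.union hb).subset ?_
    rintro p ⟨h1, h2⟩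
    by_cases h : a p = 0
    · right
      refine ⟨h1, fun h' => h2 ?_⟩
      simp [h, h']
    · exact Or.inl ⟨h1, h⟩
  smul_mem' := by
    intro c a ha
    refine ha.subset ?_
    rintro p ⟨h1, h2⟩
    refine ⟨h1, fun h' => h2 ?_⟩
    simp [h']

lemma mem_ZF {m : ℕ → ℕ} {g : ℕ × ℕ → ℤ} : g ∈ ZF m ↔ {p | p ∈ Ig m ∧ g p ≠ 0}.Finite := Iff.rfl

lemma ZF_mono {m m' : ℕ → ℕ} (h : LeStar m m') {g : ℕ × ℕ → ℤ} (hg : g ∈ ZF m') : g ∈ ZF m := by
  refine ((Ig_diff_finite h).union hg).subset ?_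
  rintro p ⟨h1, h2⟩
  by_cases hp : p ∈ Ig m'
  · exact Or.inr ⟨hp, h2⟩
  · exact Or.inl ⟨h1, hp⟩

/-- sorted (decreasing) lists -/
def Srt (l : List (ℕ → ℕ)) : Prop := l.Pairwise (fun x y => y ≤ x)

lemma Srt.sublist {l l' : List (ℕ → ℕ)} (h : Srt l) (h' : l'.Sublist l) : Srt l' :=
  List.Pairwise.sublist h' h

/-- the chain map -/
noncomputable def TT (a : (ℕ → ℕ) → ℕ → ℕ) (Y : Finset (List (ℕ → ℕ)) → ℕ → ℕ) :
    ℕ → List (ℕ → ℕ) → Ch (ℕ → ℕ)
  | 0, l => o l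
  | 1, l => cone (a (l.getLastD 0)) (ev o (bd l))
  | n+2, l => cone (Y (ev (TT a Y (n+1)) (bd l)).support) (ev (TT a Y (n+1)) (bd l))

open Classical in
/-- pointwise supremum of all members of all lists in a finite set -/
noncomputable def Zs (V : Finset (List (ℕ → ℕ))) : ℕ → ℕ :=
  V.sup (fun l => l.toFinset.sup id)

lemma le_Zs {V : Finset (List (ℕ → ℕ))} {v : List (ℕ → ℕ)} (hv : v ∈ V) {x : ℕ → ℕ}
    (hx : x ∈ v) : x ≤ Zs V := by
  classical
  refine le_trans ?_ (Finset.le_sup (f := fun l : List (ℕ → ℕ) => l.toFinset.sup id) hv)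
  exact Finset.le_sup (f := id) (by simpa using hx)

/-- the homotopy -/
noncomputable def DD (T : ℕ → List (ℕ → ℕ) → Ch (ℕ → ℕ)) : ℕ → List (ℕ → ℕ) → Ch (ℕ → ℕ)
  | 0, _ => 0
  | n+1, l => cone (Zs (o l - T (n+1) l - ev (DD T n) (bd l)).support)
      (o l - T (n+1) l - ev (DD T n) (bd l))

lemma TT_succ (a : (ℕ → ℕ) → ℕ → ℕ) (Y : Finset (List (ℕ → ℕ)) → ℕ → ℕ) (n : ℕ)
    (l : List (ℕ → ℕ)) : ∃ y, TT a Y (n+1) l = cone y (ev (TT a Y n) (bd l)) := by
  cases n with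
  | zero => exact ⟨_, rfl⟩
  | succ n => exact ⟨_, rfl⟩

lemma getLast?_mem {l : List (ℕ → ℕ)} {m : ℕ → ℕ} (h : l.getLast? = some m) : m ∈ l :=
  List.mem_of_getLast? h

lemma Srt.last_le {l : List (ℕ → ℕ)} (h : Srt l) {m : ℕ → ℕ} (hm : l.getLast? = some m)
    {f : ℕ → ℕ} (hf : f ∈ l) : m ≤ f := by
  induction l with
  | nil => simp at hf
  | cons x l ih =>
    cases l with
    | nil =>
      simp at hm hf
      rw [hf, ← hm]
    | cons y l =>
      rw [List.getLast?_cons_cons] at hm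
      have h' : Srt (y :: l) := (List.pairwise_cons.1 h).2
      rcases List.mem_cons.1 hf with rfl | hf
      · exact (List.pairwise_cons.1 h).1 m (getLast?_mem hm)
      · exact ih h' hm hf

lemma TT_supported {N : ℕ} {a : (ℕ → ℕ) → ℕ → ℕ} {Y : Finset (List (ℕ → ℕ)) → ℕ → ℕ}
    {P : Set (List (ℕ → ℕ))} (hP0 : ∀ f, [a f] ∈ P)
    (hPE : ∀ V : Finset (List (ℕ → ℕ)), ∀ i, 1 ≤ i → i ≤ N →
      (∀ v ∈ V, v ∈ P ∧ v.length = i) → ∀ v ∈ V, (Y V) :: v ∈ P) (n : ℕ) :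
    ∀ l : List (ℕ → ℕ), l.length = n + 1 → n ≤ N →
      TT a Y (n+1) l ∈ Finsupp.supported ℤ ℤ
        {v | v ∈ P ∧ v.length = n + 1 ∧ ∃ f ∈ l, v.getLast? = some (a f)} := by
  induction n with
  | zero =>
    intro l hl _
    obtain ⟨f, rfl⟩ : ∃ f, l = [f] := List.length_eq_one_iff.1 hl
    have h1 : TT a Y 1 [f] = o [a f] := by
      simp [TT, bd]
    rw [h1]
    exact o_supported ⟨hP0 f, rfl, f, by simp, by simp⟩
  | succ n ih =>
    intro l hl hn
    have hsup : ev (TT a Y (n+1)) (bd l) ∈ Finsupp.supported ℤ ℤ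
        {v | v ∈ P ∧ v.length = n + 1 ∧ ∃ f ∈ l, v.getLast? = some (a f)} := by
      refine ev_supported (bd_supported l) ?_
      rintro l' ⟨h1, h2⟩
      refine Finsupp.supported_mono ?_ (ih l' (by omega) (by omega))
      rintro v ⟨hv1, hv2, f, hf, hv3⟩
      exact ⟨hv1, hv2, f, h1.subset hf, hv3⟩
    have hmem := (Finsupp.mem_supported ℤ _).1 hsup
    show cone (Y (ev (TT a Y (n+1)) (bd l)).support) (ev (TT a Y (n+1)) (bd l)) ∈ _
    refine ev_mem fun v hv => o_supported ?_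
    obtain ⟨hv1, hv2, f, hf, hv3⟩ := hmem hv
    refine ⟨?_, by simp [hv2], f, hf, ?_⟩
    · exact hPE _ (n+1) (by omega) hn (fun w hw => ⟨(hmem hw).1, (hmem hw).2.1⟩) v hv
    · cases v with
      | nil => simp at hv2
      | cons x v => rw [List.getLast?_cons_cons]; exact hv3

lemma DD_supported {N : ℕ} {a : (ℕ → ℕ) → ℕ → ℕ} {T : ℕ → List (ℕ → ℕ) → Ch (ℕ → ℕ)}
    (hT : ∀ n, ∀ l : List (ℕ → ℕ), l.length = n + 1 → n ≤ N →
      T (n+1) l ∈ Finsupp.supported ℤ ℤ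
        {v | Srt v ∧ v.length = n + 1 ∧ ∃ f ∈ l, v.getLast? = some (a f)}) (n : ℕ) :
    ∀ l : List (ℕ → ℕ), Srt l → l.length = n → n ≤ N + 1 →
      DD T n l ∈ Finsupp.supported ℤ ℤ
        {v | Srt v ∧ v.length = n + 1 ∧ ∃ f ∈ l, v.getLast? = some f ∨ v.getLast? = some (a f)} := by
  induction n with
  | zero => intro l _ _ _; exact Submodule.zero_mem _
  | succ n ih =>
    intro l hs hl hn
    have hsup : (o l - T (n+1) l - ev (DD T n) (bd l)) ∈ Finsupp.supported ℤ ℤ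
        {v | Srt v ∧ v.length = n + 1 ∧ ∃ f ∈ l, v.getLast? = some f ∨ v.getLast? = some (a f)} := by
      refine Submodule.sub_mem _ (Submodule.sub_mem _ ?_ ?_) ?_
      · refine o_supported ⟨hs, hl, ?_⟩
        have hne : l ≠ [] := by
          intro h; simp [h] at hl
        exact ⟨l.getLast hne, List.getLast_mem hne, Or.inl (List.getLast?_eq_some_getLast hne)⟩
      · refine Finsupp.supported_mono ?_ (hT n l hl (by omega))
        rintro v ⟨hv1, hv2, f, hf, hv3⟩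
        exact ⟨hv1, hv2, f, hf, Or.inr hv3⟩
      · refine ev_supported (bd_supported l) ?_
        rintro l' ⟨h1, h2⟩
        refine Finsupp.supported_mono ?_ (ih l' (hs.sublist h1) (by omega) (by omega))
        rintro v ⟨hv1, hv2, f, hf, hv3⟩
        exact ⟨hv1, hv2, f, h1.subset hf, hv3⟩
    have hmem := (Finsupp.mem_supported ℤ _).1 hsup
    show cone (Zs (o l - T (n+1) l - ev (DD T n) (bd l)).support)
      (o l - T (n+1) l - ev (DD T n) (bd l)) ∈ _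
    refine ev_mem fun v hv => o_supported ?_
    obtain ⟨hv1, hv2, f, hf, hv3⟩ := hmem hv
    refine ⟨?_, by simp [hv2], f, hf, ?_⟩
    · exact List.pairwise_cons.2 ⟨fun x hx => le_Zs hv hx, hv1⟩
    · cases v with
      | nil => simp at hv2
      | cons x v => rw [List.getLast?_cons_cons]; exact hv3

theorem algebra_part (M : ℕ) (Φ : List (ℕ → ℕ) → ℕ × ℕ → ℤ) (F : Set (ℕ × ℕ)) (hF : F.Finite)
    (a : (ℕ → ℕ) → ℕ → ℕ) (ha : ∀ f, LeStar f (a f)) (P : Set (List (ℕ → ℕ)))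
    (hP0 : ∀ f, [a f] ∈ P)
    (hPE : ∀ V : Finset (List (ℕ → ℕ)), ∀ i, 1 ≤ i → i ≤ M + 1 →
      (∀ v ∈ V, v ∈ P ∧ v.length = i) → ∃ y, ∀ v ∈ V, y :: v ∈ P)
    (hPS : ∀ v ∈ P, Srt v)
    (hPK : ∀ v ∈ P, v.length = M + 2 → ∀ m, v.getLast? = some m → ∀ p ∈ Ig m, p ∉ F →
      ev Φ (bd v) p = 0)
    (hcoh : ∀ v, Srt v → v.length = M + 2 → ∀ m, v.getLast? = some m → ev Φ (bd v) ∈ ZF m) :
    ∃ Ψ : List (ℕ → ℕ) → ℕ × ℕ → ℤ, ∀ l, Srt l → l.length = M + 1 → ∀ m, l.getLast? = some m →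
      Φ l - ev Ψ (bd l) ∈ ZF m := by
  classical
  -- choice function for extensions
  have hY : ∀ V : Finset (List (ℕ → ℕ)), ∃ y, (∃ i, 1 ≤ i ∧ i ≤ M + 1 ∧
      ∀ v ∈ V, v ∈ P ∧ v.length = i) → ∀ v ∈ V, y :: v ∈ P := by
    intro V
    by_cases h : ∃ i, 1 ≤ i ∧ i ≤ M + 1 ∧ ∀ v ∈ V, v ∈ P ∧ v.length = i
    · obtain ⟨i, h1, h2, h3⟩ := h
      obtain ⟨y, hy⟩ := hPE V i h1 h2 h3
      exact ⟨y, fun _ => hy⟩
    · exact ⟨0, fun h' => absurd h' h⟩
  choose Y hY using hY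
  set T := TT a Y with hTdef
  set D := DD T with hDdef
  have hT0 : ∀ l, T 0 l = o l := fun l => rfl
  have hTs : ∀ n l, ∃ y, T (n+1) l = cone y (ev (T n) (bd l)) := TT_succ a Y
  have hD0 : ∀ l, D 0 l = 0 := fun l => rfl
  have hDs : ∀ n l, ∃ z, D (n+1) l = cone z (o l - T (n+1) l - ev (D n) (bd l)) :=
    fun n l => ⟨_, rfl⟩
  have hTsup := TT_supported (N := M + 1) (Y := Y) hP0
    (fun V i h1 h2 h3 => hY V ⟨i, h1, h2, h3⟩)
  have hDsup := DD_supported (N := M + 1) (a := a) (T := T) (by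
    intro n l h1 h2
    refine Finsupp.supported_mono ?_ (hTsup n l h1 h2)
    rintro v ⟨hv1, hv2⟩
    exact ⟨hPS v hv1, hv2⟩)
  -- base points
  let b : ℕ × ℕ → ℕ → ℕ := fun p => if h : ∃ f, p ∈ Ig (a f) then h.choose else 0
  have hb : ∀ p f, p ∈ Ig (a f) → p ∈ Ig (a (b p)) := by
    intro p f hp
    have h : ∃ f, p ∈ Ig (a f) := ⟨f, hp⟩
    simp only [b, h, dif_pos]
    exact h.choose_spec
  let Λ : List (ℕ → ℕ) → ℕ × ℕ → ℤ := fun m p => ev Φ (T (M+1) (b p :: m)) p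
  have evp : ∀ (θ : List (ℕ → ℕ) → ℕ × ℕ → ℤ) (c : Ch (ℕ → ℕ)) (p : ℕ × ℕ),
      ev θ c p = ev (fun l => θ l p) c := by
    intro θ c p
    exact map_ev (LinearMap.proj (R := ℤ) (φ := fun _ : ℕ × ℕ => ℤ) p) θ c
  -- key identity
  have key : ∀ l : List (ℕ → ℕ), l.length = M + 1 → ∀ p, p ∉ F → (∀ f ∈ l, p ∈ Ig (a f)) →
      ev Φ (T (M+1) l) p = ev Λ (bd l) p := by
    intro l hl p hpF hp
    have hne : ∃ f, f ∈ l := by
      cases l with
      | nil => simp at hl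
      | cons x l => exact ⟨x, by simp⟩
    obtain ⟨f0, hf0⟩ := hne
    have e1 : Bd (T (M+2) (b p :: l)) = T (M+1) l - ev (T (M+1)) (cone (b p) (bd l)) := by
      rw [chainmap hT0 hTs]
      simp [bd]
    have e2 : ev Φ (Bd (T (M+2) (b p :: l))) p = 0 := by
      rw [← ev_bd, evp]
      rw [ev_congr (θ' := fun _ => 0)]
      · simp [ev, Finsupp.linearCombination_apply]
      · intro v hv
        obtain ⟨hv1, hv2, f, hf, hv3⟩ := (Finsupp.mem_supported ℤ _).1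
          (hTsup (M+1) (b p :: l) (by simp [hl]) le_rfl) hv
        refine hPK v hv1 hv2 _ hv3 p ?_ hpF
        rcases List.mem_cons.1 hf with rfl | hf
        · exact hb p f0 (hp f0 hf0)
        · exact hp f hf
    rw [e1, map_sub] at e2
    have e3 : ev Φ (ev (T (M+1)) (cone (b p) (bd l))) p = ev Λ (bd l) p := by
      have h1 : ev (T (M+1)) (cone (b p) (bd l)) = ev (fun m => T (M+1) (b p :: m)) (bd l) := by
        unfold cone
        rw [map_ev]
        simp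
      rw [h1, map_ev, evp, evp]
    rw [← e3]
    have : (ev Φ (T (M+1) l) - ev Φ (ev (T (M+1)) (cone (b p) (bd l)))) p = 0 := e2
    rw [Pi.sub_apply, sub_eq_zero] at this
    exact this
  refine ⟨fun m => Λ m + ev Φ (D M m), ?_⟩
  intro l hs hl m hm
  have e4 : Φ l = ev Φ (T (M+1) l) + ev Φ (ev (D M) (bd l)) + ev Φ (Bd (D (M+1) l)) := by
    rw [homotopy hT0 hTs hD0 hDs, ← map_add, ← map_add]
    have : T (M+1) l + ev (D M) (bd l) + (o l - T (M+1) l - ev (D M) (bd l)) = o l := by abel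
    rw [this, ev_o]
  have e5 : Φ l - ev (fun m => Λ m + ev Φ (D M m)) (bd l) =
      (ev Φ (T (M+1) l) - ev Λ (bd l)) + ev Φ (Bd (D (M+1) l)) := by
    rw [ev_add, e4, map_ev (ev Φ) (D M)]
    abel
  rw [e5]
  refine Submodule.add_mem _ ?_ ?_
  · -- the set of exceptions is finite
    have hfin : (F ∪ ⋃ f ∈ {f | f ∈ l}, (Ig m \ Ig (a f))).Finite := by
      refine hF.union (Set.Finite.biUnion (List.finite_toSet l) fun f hf => ?_)
      exact Ig_diff_finite ((LeStar.of_le (hs.last_le hm hf)).trans (ha f))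
    refine hfin.subset ?_
    rintro p ⟨h1, h2⟩
    by_cases hpF : p ∈ F
    · exact Or.inl hpF
    right
    by_contra hcon
    simp only [mem_iUnion, not_exists] at hcon
    apply h2
    rw [Pi.sub_apply, sub_eq_zero]
    apply key l hl p hpF
    intro f hf
    by_contra hpf
    exact hcon f hf ⟨h1, hpf⟩
  · rw [← ev_bd]
    refine ev_mem fun v hv => ?_
    obtain ⟨hv1, hv2, f, hf, hv3⟩ := (Finsupp.mem_supported ℤ _).1 (hDsup (M+1) l hs hl (by omega)) hv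
    rcases hv3 with hv3 | hv3
    · exact ZF_mono (LeStar.of_le (hs.last_le hm hf)) (hcoh v hv1 hv2 _ hv3)
    · exact ZF_mono ((LeStar.of_le (hs.last_le hm hf)).trans (ha f)) (hcoh v hv1 hv2 _ hv3)

end Pool.Agent.Helper84.Coh
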