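import Pool.Agent.Helper84.Coh.Box

/-!
The bar operator and the description of largeness of complements of countable unions.
-/

namespace Pool.Agent.Helper84.Coh

open Set Filter Topology

/-- `Bar S t`: every tree with stem `t` (with cofinite splitting) meets `S`. -/
inductive Bar (S : Set (List ℕ)) : List ℕ → Prop
  | base (t : List ℕ) (h : t ∈ S) : Bar S t
  | step (t : List ℕ) (k : ℕ → ℕ) (hk : ∀ m, m ≤ k m) (h : ∀ m, Bar S (t ++ [k m])) : Bar S t

lemma not_bar_iff (S : Set (List ℕ)) (t : List ℕ) :
    ¬ Bar S t ↔ ∃ h, ∀ x ∈ Box t h, ∀ k, t.length ≤ k → res x.val k ∉ S := by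
  constructor
  · intro hb
    have key : ∀ s, ¬ Bar S s → ∃ m, ∀ k, m ≤ k → ¬ Bar S (s ++ [k]) := by
      intro s hs
      by_contra hcon
      push Not at hcon
      choose k hk1 hk2 using hcon
      exact hs (Bar.step s k hk1 hk2)
    classical
    choose! h hh using key
    refine ⟨h, fun x hx k hk => ?_⟩
    have : ¬ Bar S (res x.val k) := by
      induction k, hk using Nat.le_induction with
      | base => rw [hx.1]; exact hb
      | succ k hk ih =>
        rw [res_succ]
        exact hh _ ih _ (hx.2 k hk)
    intro hS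
    exact this (Bar.base _ hS)
  · rintro ⟨h, hh⟩ hb
    have key : ∀ s, Bar S s → ∀ h' : List ℕ → ℕ, ∃ x ∈ Box s h', ∃ k, s.length ≤ k ∧
        res x.val k ∈ S := by
      intro s hs
      induction hs with
      | base t ht =>
        intro h'
        obtain ⟨x, hx⟩ := box_nonempty t h'
        exact ⟨x, hx, t.length, le_rfl, by rw [hx.1]; exact ht⟩
      | step t k hk _ ih =>
        intro h'
        obtain ⟨x, hx, j, hj, hS⟩ := ih (h' t) h'
        have hlen : (t ++ [k (h' t)]).length = t.length + 1 := by simp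
        have h1 := hx.1
        rw [hlen, res_succ] at h1
        have h2 : res x.val t.length = t := List.append_inj_left' h1 rfl
        have h3 : x.val t.length = k (h' t) := by
          have := List.append_inj_right' h1 rfl
          simpa using this
        refine ⟨x, ⟨h2, fun i hi => ?_⟩, j, by rw [hlen] at hj; omega, hS⟩
        rcases hi.eq_or_lt with hi | hi
        · subst hi
          rw [h2, h3]
          exact hk _
        · exact hx.2 i (by rw [hlen]; omega)
    obtain ⟨x, hx, k, hk, hS⟩ := key t hb h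
    exact hh x hx k hk hS

lemma mem_G_inter_false {t : List ℕ} {A B : Set LN} (hA : A ∈ G t) (hB : B ∈ G t)
    (h : A ∩ B = ∅) : False := by
  have := (G t).inter_sets hA hB
  rw [h] at this
  exact Filter.empty_notMem (G t) this

/-- Largeness of complements of countable unions -/
lemma compl_iUnion_mem_G {ι : Type*} [Countable ι] {A : ι → Set LN}
    (hA : ∀ i, BaireMeasurableSet (A i)) (t : List ℕ) :
    (⋃ i, A i)ᶜ ∈ G t ↔ ¬ Bar {s | ∃ i, A i ∈ G s} t := by
  rw [not_bar_iff]
  constructor
  · rintro ⟨h, hh⟩
    refine ⟨h, fun x hx k hk => ?_⟩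
    rintro ⟨i, hi⟩
    have h1 := G_reach hh hx hk
    refine mem_G_inter_false hi h1 ?_
    rw [eq_empty_iff_forall_notMem]
    rintro y ⟨hy1, hy2⟩
    exact hy2 (mem_iUnion.2 ⟨i, hy1⟩)
  · rintro ⟨h, hh⟩
    refine ⟨h, ?_⟩
    have : ∀ i, ∀ᶠ x in residual LN, x ∈ Box t h → x ∉ A i := by
      intro i
      by_contra hcon
      obtain ⟨x, hx, k, hk, hG⟩ := exists_large (hA i) hcon t.length
      exact hh x hx k hk ⟨i, hG⟩
    have h2 := eventually_countable_forall.2 this
    filter_upwards [h2] with x hx hb
    rintro hmem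
    obtain ⟨i, hi⟩ := mem_iUnion.1 hmem
    exact hx i hb hi

end Pool.Agent.Helper84.Coh
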