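import Mathlib

/-!
A fine topology on Baire space whose basic open sets are the boxes
`{x ⊇ t : x k ≥ h (x|k) for k ≥ |t|}`, and the filters `G t` of sets which are comeager in some
box with stem `t`.
-/

namespace Pool.Agent.Helper84.Coh

open Set Filter Topology

/-- initial segment of length `k` -/
def res (x : ℕ → ℕ) (k : ℕ) : List ℕ := (List.range k).map x

@[simp] lemma length_res (x : ℕ → ℕ) (k : ℕ) : (res x k).length = k := by simp [res]

lemma res_succ (x : ℕ → ℕ) (k : ℕ) : res x (k+1) = res x k ++ [x k] := by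
  simp [res, List.range_succ]

lemma res_congr {x y : ℕ → ℕ} {k : ℕ} (h : ∀ i < k, x i = y i) : res x k = res y k := by
  unfold res
  apply List.map_congr_left
  intro a ha
  exact h a (by simpa using ha)

lemma res_eq_iff {x y : ℕ → ℕ} {k : ℕ} : res x k = res y k ↔ ∀ i < k, x i = y i := by
  refine ⟨fun h i hi => ?_, res_congr⟩
  have h2 := congrArg (fun l => l.getD i 0) h
  simpa [res, hi] using h2

lemma res_mono {x y : ℕ → ℕ} {j k : ℕ} (h : res x k = res y k) (hjk : j ≤ k) :
    res x j = res y j := by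
  rw [res_eq_iff] at *
  intro i hi
  exact h i (lt_of_lt_of_le hi hjk)

lemma res_getD {x : ℕ → ℕ} {t : List ℕ} (h : res x t.length = t) {k : ℕ} (hk : k < t.length) :
    x k = t.getD k 0 := by
  conv_rhs => rw [← h]
  simp [res, hk]

/-- Baire space with the fine topology -/
structure LN where
  /-- the underlying function -/
  val : ℕ → ℕ

/-- The box with stem `t` and height function `h` -/
def Box (t : List ℕ) (h : List ℕ → ℕ) : Set LN :=
  {x | res x.val t.length = t ∧ ∀ k, t.length ≤ k → h (res x.val k) ≤ x.val k}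

lemma box_mono {t : List ℕ} {h h' : List ℕ → ℕ} (hh : ∀ s, h s ≤ h' s) : Box t h' ⊆ Box t h := by
  rintro x ⟨h1, h2⟩
  exact ⟨h1, fun k hk => (hh _).trans (h2 k hk)⟩

lemma box_res_subset {t : List ℕ} {h : List ℕ → ℕ} {x : LN} (hx : x ∈ Box t h) {k : ℕ}
    (hk : t.length ≤ k) : Box (res x.val k) h ⊆ Box t h := by
  rintro y ⟨h1, h2⟩
  rw [length_res] at h1 h2
  refine ⟨?_, fun j hj => ?_⟩
  · rw [res_mono h1 hk]; exact hx.1
  · by_cases hjk : k ≤ j
    · exact h2 j hjk
    · push Not at hjk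
      rw [res_mono h1 hjk.le, (res_eq_iff.1 h1) j hjk]
      exact hx.2 j hj

lemma mem_box_res {t : List ℕ} {h : List ℕ → ℕ} {x : LN} (hx : x ∈ Box t h) {k : ℕ}
    (hk : t.length ≤ k) : x ∈ Box (res x.val k) h := by
  refine ⟨by simp, fun j hj => hx.2 j ?_⟩
  rw [length_res] at hj
  exact hk.trans hj

instance : TopologicalSpace LN where
  IsOpen U := ∀ x ∈ U, ∃ t h, x ∈ Box t h ∧ Box t h ⊆ U
  isOpen_univ := fun x _ => ⟨[], fun _ => 0, ⟨by simp [res], fun k _ => by simp⟩, by simp⟩
  isOpen_inter := by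
    rintro U V hU hV x ⟨hxU, hxV⟩
    obtain ⟨t, h, hx1, hs1⟩ := hU x hxU
    obtain ⟨t', h', hx2, hs2⟩ := hV x hxV
    refine ⟨res x.val (max t.length t'.length), fun s => max (h s) (h' s), ⟨by simp, fun k hk => ?_⟩,
      subset_inter ?_ ?_⟩
    · rw [length_res] at hk
      exact max_le (hx1.2 k (le_trans (le_max_left _ _) hk)) (hx2.2 k (le_trans (le_max_right _ _) hk))
    · refine Subset.trans ?_ hs1
      refine Subset.trans ?_ (box_res_subset hx1 (le_max_left t.length t'.length))
      exact box_mono fun s => le_max_left _ _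
    · refine Subset.trans ?_ hs2
      refine Subset.trans ?_ (box_res_subset hx2 (le_max_right t.length t'.length))
      exact box_mono fun s => le_max_right _ _
  isOpen_sUnion := by
    rintro S hS x ⟨U, hU, hxU⟩
    obtain ⟨t, h, hx1, hs1⟩ := hS U hU x hxU
    exact ⟨t, h, hx1, hs1.trans (subset_sUnion_of_mem hU)⟩

lemma isOpen_iff {U : Set LN} : IsOpen U ↔ ∀ x ∈ U, ∃ t h, x ∈ Box t h ∧ Box t h ⊆ U := Iff.rfl

lemma isOpen_box (t : List ℕ) (h : List ℕ → ℕ) : IsOpen (Box t h) :=
  fun _ hx => ⟨t, h, hx, Subset.rfl⟩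

/-- In an open set, around each point there are boxes with arbitrarily long stems -/
lemma exists_box_res {U : Set LN} (hU : IsOpen U) {x : LN} (hx : x ∈ U) (M : ℕ) :
    ∃ k, M ≤ k ∧ ∃ h, x ∈ Box (res x.val k) h ∧ Box (res x.val k) h ⊆ U := by
  obtain ⟨t, h, hx1, hs⟩ := hU x hx
  refine ⟨max t.length M, le_max_right _ _, h, mem_box_res hx1 (le_max_left _ _), ?_⟩
  exact (box_res_subset hx1 (le_max_left _ _)).trans hs

/-- limit of an increasing sequence of stems -/
lemma exists_limit (s : ℕ → List ℕ) (hp : ∀ n, s n <+: s (n+1)) (hl : ∀ n, n ≤ (s n).length) :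
    ∃ x : LN, ∀ n, res x.val (s n).length = s n := by
  have hp' : ∀ m n, m ≤ n → s m <+: s n := by
    intro m n hmn
    induction n, hmn using Nat.le_induction with
    | base => exact List.prefix_rfl
    | succ n _ ih => exact ih.trans (hp n)
  refine ⟨⟨fun k => (s (k+1)).getD k 0⟩, fun n => ?_⟩
  apply List.ext_getElem
  · simp
  · intro i h1 h2
    have hi : i < (s (i+1)).length := lt_of_lt_of_le (Nat.lt_succ_self i) (hl (i+1))
    have e1 : (res (fun k => (s (k+1)).getD k 0) (s n).length)[i] = (s (i+1)).getD i 0 := by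
      simp [res]
    rw [e1, List.getD_eq_getElem _ _ hi]
    rcases le_total (i+1) n with h | h
    · exact (hp' _ _ h).getElem hi
    · exact ((hp' _ _ h).getElem h2).symm

/-- The tree order: `s` is reached from `t` respecting `h`. -/
def Reach (h : List ℕ → ℕ) (t s : List ℕ) : Prop :=
  ∃ x ∈ Box t h, ∃ k, t.length ≤ k ∧ s = res x.val k

lemma box_nonempty (t : List ℕ) (h : List ℕ → ℕ) : (Box t h).Nonempty := by
  obtain ⟨s, s0, ss⟩ : ∃ s : ℕ → List ℕ, s 0 = t ∧ ∀ n, s (n+1) = s n ++ [h (s n)] :=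
    ⟨fun n => Nat.rec t (fun _ l => l ++ [h l]) n, rfl, fun n => rfl⟩
  have hlen : ∀ n, (s n).length = t.length + n := by
    intro n
    induction n with
    | zero => simp [s0]
    | succ n ih => rw [ss, List.length_append, ih]; simp; omega
  obtain ⟨x, hx⟩ := exists_limit s (fun n => by rw [ss]; exact List.prefix_append _ _)
    (fun n => by rw [hlen]; omega)
  refine ⟨x, ?_, fun k hk => ?_⟩
  · have := hx 0
    rwa [s0] at this
  · obtain ⟨j, rfl⟩ := Nat.exists_eq_add_of_le hk
    have h1 := hx j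
    have h2 := hx (j+1)
    rw [hlen] at h1 h2
    rw [ss, ← add_assoc, res_succ, h1] at h2
    have h3 : x.val (t.length + j) = h (s j) := by
      have := (List.append_cancel_left h2)
      simpa using this
    rw [h1, h3]

instance : Nonempty LN := (box_nonempty [] (fun _ => 0)).to_type

instance : BaireSpace LN := by
  refine ⟨fun f ho hd => ?_⟩
  rw [dense_iff_inter_open]
  intro U hU hne
  -- build a decreasing sequence of boxes
  have step : ∀ (n : ℕ) (p : List ℕ × (List ℕ → ℕ)), ∃ q : List ℕ × (List ℕ → ℕ),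
      p.1.length < q.1.length ∧ p.1 <+: q.1 ∧ Box q.1 q.2 ⊆ Box p.1 p.2 ∧ Box q.1 q.2 ⊆ f n := by
    intro n p
    obtain ⟨x, hx1, hx2⟩ := (hd n).inter_open_nonempty _ (isOpen_box p.1 p.2) (box_nonempty _ _)
    obtain ⟨k, hk, h, _, hs⟩ := exists_box_res ((ho n).inter (isOpen_box p.1 p.2)) ⟨hx2, hx1⟩
      (p.1.length + 1)
    refine ⟨(res x.val k, h), by simp; omega, ?_, hs.trans inter_subset_right,
      hs.trans inter_subset_left⟩
    have h1 : p.1 = res x.val p.1.length := hx1.1.symm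
    rw [h1]
    show res x.val p.1.length <+: res x.val k
    obtain ⟨j, rfl⟩ := Nat.exists_eq_add_of_le (show p.1.length ≤ k by omega)
    unfold res
    rw [List.range_add, List.map_append]
    exact List.prefix_append _ _
  choose F hF1 hF2 hF3 hF4 using step
  obtain ⟨x0, hx0⟩ := hne
  obtain ⟨k0, -, h0, -, hs0⟩ := exists_box_res hU hx0 0
  let q : ℕ → List ℕ × (List ℕ → ℕ) := fun n => Nat.rec (res x0.val k0, h0) (fun n p => F n p) n
  have q0 : q 0 = (res x0.val k0, h0) := rfl
  have qs : ∀ n, q (n+1) = F n (q n) := fun n => rfl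
  have hlen : ∀ n, n ≤ (q n).1.length := by
    intro n
    induction n with
    | zero => simp
    | succ n ih =>
      have := hF1 n (q n)
      rw [← qs] at this
      omega
  have hpre : ∀ n, (q n).1 <+: (q (n+1)).1 := fun n => by rw [qs]; exact hF2 n (q n)
  obtain ⟨x, hx⟩ := exists_limit (fun n => (q n).1) hpre hlen
  have hsub : ∀ m n, m ≤ n → Box (q n).1 (q n).2 ⊆ Box (q m).1 (q m).2 := by
    intro m n hmn
    induction n, hmn using Nat.le_induction with
    | base => exact Subset.rfl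
    | succ n _ ih => rw [qs]; exact (hF3 n (q n)).trans ih
  have hmem : ∀ n, x ∈ Box (q n).1 (q n).2 := by
    intro n
    refine ⟨hx n, fun k hk => ?_⟩
    -- pick a later box
    obtain ⟨m, hm1, hm2⟩ : ∃ m, n ≤ m ∧ k < (q m).1.length :=
      ⟨max n (k+1), le_max_left _ _, lt_of_lt_of_le (Nat.lt_succ_self k)
        ((le_max_right n (k+1)).trans (hlen _))⟩
    obtain ⟨y, hy⟩ := box_nonempty (q m).1 (q m).2
    have hy' := hsub n m hm1 hy
    have hxy : res x.val (q m).1.length = res y.val (q m).1.length := by rw [hx m, hy.1]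
    rw [res_mono hxy hm2.le, (res_eq_iff.1 hxy) k hm2]
    exact hy'.2 k hk
  refine ⟨x, hs0 (hmem 0), mem_iInter.2 fun n => ?_⟩
  have := hmem (n+1)
  rw [qs] at this
  exact hF4 n _ this

/-- The filter of sets comeager in some box with stem `t` -/
def G (t : List ℕ) : Filter LN where
  sets := {R | ∃ h, ∀ᶠ x in residual LN, x ∈ Box t h → x ∈ R}
  univ_sets := ⟨fun _ => 0, by simp⟩
  sets_of_superset := by
    rintro R S ⟨h, hR⟩ hRS
    exact ⟨h, hR.mono fun x hx hb => hRS (hx hb)⟩
  inter_sets := by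
    rintro R S ⟨h, hR⟩ ⟨h', hS⟩
    refine ⟨fun s => max (h s) (h' s), ?_⟩
    filter_upwards [hR, hS] with x h1 h2 hb
    exact ⟨h1 (box_mono (fun s => le_max_left _ _) hb), h2 (box_mono (fun s => le_max_right _ _) hb)⟩

lemma mem_G {t : List ℕ} {R : Set LN} :
    R ∈ G t ↔ ∃ h, ∀ᶠ x in residual LN, x ∈ Box t h → x ∈ R := Iff.rfl

lemma residual_open_nonempty {U : Set LN} (hU : IsOpen U) (hne : U.Nonempty)
    {P : LN → Prop} (hP : ∀ᶠ x in residual LN, P x) : ∃ x ∈ U, P x := by
  have hd : Dense {x | P x} := dense_of_mem_residual hP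
  obtain ⟨x, hx1, hx2⟩ := hd.inter_open_nonempty U hU hne
  exact ⟨x, hx1, hx2⟩

instance G_neBot (t : List ℕ) : (G t).NeBot := by
  refine ⟨fun hb => ?_⟩
  have h0 : (∅ : Set LN) ∈ G t := by rw [hb]; exact mem_bot
  obtain ⟨h, hh⟩ := mem_G.1 h0
  obtain ⟨x, hx, hx2⟩ := residual_open_nonempty (isOpen_box t h) (box_nonempty t h) hh
  exact hx2 hx

lemma G_le_residual (t : List ℕ) : G t ≤ residual LN := by
  intro R hR
  exact ⟨fun _ => 0, by filter_upwards [hR] with x hx _ using hx⟩

lemma G_box (t : List ℕ) (h : List ℕ → ℕ) : Box t h ∈ G t :=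
  ⟨h, by simp⟩

lemma eventually_G_stem (t : List ℕ) (g : ℕ → ℕ) :
    ∀ᶠ x in G t, res x.val t.length = t ∧ ∀ k, t.length ≤ k → g k ≤ x.val k := by
  refine Filter.mem_of_superset (G_box t (fun s => g s.length)) ?_
  rintro x ⟨h1, h2⟩
  refine ⟨h1, fun k hk => ?_⟩
  have := h2 k hk
  simpa using this

lemma G_reach {t : List ℕ} {R : Set LN} {h : List ℕ → ℕ}
    (hR : ∀ᶠ x in residual LN, x ∈ Box t h → x ∈ R) {x : LN} (hx : x ∈ Box t h) {k : ℕ}
    (hk : t.length ≤ k) : R ∈ G (res x.val k) := by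
  refine ⟨h, ?_⟩
  filter_upwards [hR] with y hy hyb
  exact hy (box_res_subset hx hk hyb)

/-- a set with the Baire property that is nonmeager in a box is large at some later stem -/
lemma exists_large {A : Set LN} (hA : BaireMeasurableSet A) {U : Set LN}
    (hne : ¬ ∀ᶠ x in residual LN, x ∈ U → x ∉ A) (M : ℕ) :
    ∃ x ∈ U, ∃ k, M ≤ k ∧ A ∈ G (res x.val k) := by
  obtain ⟨V, hV, hAV⟩ := hA.residualEq_isOpen
  have : (V ∩ U).Nonempty := by
    by_contra hcon
    rw [not_nonempty_iff_eq_empty] at hcon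
    apply hne
    filter_upwards [hAV] with x hx hxU hxA
    have h1 : x ∈ V := by
      have : A x = V x := hx
      have h2 : A x := hxA
      rw [this] at h2
      exact h2
    have : x ∈ V ∩ U := ⟨h1, hxU⟩
    rw [hcon] at this
    exact this
  obtain ⟨x, hxV, hxU⟩ := this
  obtain ⟨k, hk, h, _, hs⟩ := exists_box_res hV hxV M
  refine ⟨x, hxU, k, hk, h, ?_⟩
  filter_upwards [hAV] with y hy hyb
  have h1 : V y := hs hyb
  have : A y = V y := hy
  show A y
  rw [this]; exact h1

end Pool.Agent.Helper84.Coh
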