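import Mathlib

/-!
Ordered chains: the free abelian group on lists, boundary, cones, and the algebraic part of the
trivialization argument.
-/

namespace Pool.Agent.Helper84.Coh

open Set Filter

/-- chains: formal integer combinations of lists -/
abbrev Ch (α : Type) := List α →₀ ℤ

/-- the chain given by one list -/
noncomputable def o {α : Type} (l : List α) : Ch α := Finsupp.single l 1

/-- linear extension -/
noncomputable def ev {α G : Type} [AddCommGroup G] (θ : List α → G) : Ch α →ₗ[ℤ] G :=
  Finsupp.linearCombination ℤ θ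

variable {α G : Type} [AddCommGroup G]

@[simp] lemma ev_o (θ : List α → G) (l : List α) : ev θ (o l) = θ l := by
  simp [ev, o]

lemma map_ev {G' : Type} [AddCommGroup G'] (φ : G →ₗ[ℤ] G') (θ : List α → G) (c : Ch α) :
    φ (ev θ c) = ev (fun l => φ (θ l)) c := by
  unfold ev
  rw [Finsupp.apply_linearCombination]
  rfl

lemma ev_add (θ θ' : List α → G) (c : Ch α) :
    ev (fun l => θ l + θ' l) c = ev θ c + ev θ' c := by
  simp [ev, Finsupp.linearCombination_apply, Finsupp.sum, smul_add, Finset.sum_add_distrib]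

lemma ev_congr {θ θ' : List α → G} {c : Ch α} (h : ∀ l ∈ c.support, θ l = θ' l) :
    ev θ c = ev θ' c := by
  simp only [ev, Finsupp.linearCombination_apply, Finsupp.sum]
  exact Finset.sum_congr rfl fun l hl => by rw [h l hl]

lemma ev_mem {θ : List α → G} {c : Ch α} {S : Submodule ℤ G} (h : ∀ l ∈ c.support, θ l ∈ S) :
    ev θ c ∈ S := by
  simp only [ev, Finsupp.linearCombination_apply, Finsupp.sum]
  exact S.sum_mem fun l hl => S.smul_mem _ (h l hl)

/-- cone -/
noncomputable def cone (x : α) : Ch α →ₗ[ℤ] Ch α := ev (fun l => o (x :: l))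

@[simp] lemma cone_o (x : α) (l : List α) : cone x (o l) = o (x :: l) := by
  simp [cone]

/-- boundary of a list -/
noncomputable def bd : List α → Ch α
  | [] => 0
  | x :: l => o l - cone x (bd l)

/-- boundary of a chain -/
noncomputable def Bd : Ch α →ₗ[ℤ] Ch α := ev bd

@[simp] lemma Bd_o (l : List α) : Bd (o l) = bd l := by simp [Bd]

lemma ev_o_id (c : Ch α) : ev o c = c := by
  simp [ev, Finsupp.linearCombination_apply, o]

lemma Bd_cone (x : α) (c : Ch α) : Bd (cone x c) = c - cone x (Bd c) := by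
  have h1 : Bd (cone x c) = ev (fun l => Bd (o (x :: l))) c := map_ev Bd _ c
  rw [h1]
  have h2 : cone x (Bd c) = ev (fun l => cone x (bd l)) c := map_ev (cone x) _ c
  rw [h2]
  have h3 : ev (fun l => Bd (o (x :: l))) c + ev (fun l => cone x (bd l)) c = c := by
    rw [← ev_add]
    simp only [Bd_o, bd, sub_add_cancel]
    exact ev_o_id c
  exact eq_sub_of_add_eq h3

lemma Bd_bd (l : List α) : Bd (bd l) = 0 := by
  induction l with
  | nil => simp [bd]
  | cons x l ih => simp only [bd, map_sub, Bd_o, Bd_cone, ih, map_zero, sub_zero, sub_self]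

lemma Bd_Bd (c : Ch α) : Bd (Bd c) = 0 := by
  have : Bd (Bd c) = ev (fun l => Bd (bd l)) c := map_ev Bd bd c
  rw [this]
  simp [Bd_bd, ev, Finsupp.linearCombination_apply]

lemma ev_bd (f : List α → G) (c : Ch α) : ev (fun l => ev f (bd l)) c = ev f (Bd c) :=
  (map_ev (ev f) bd c).symm

lemma ev_supported {β : Type} {f : List α → Ch β} {c : Ch α} {P : Set (List α)} {Q : Set (List β)}
    (hc : c ∈ Finsupp.supported ℤ ℤ P) (h : ∀ l ∈ P, f l ∈ Finsupp.supported ℤ ℤ Q) :
    ev f c ∈ Finsupp.supported ℤ ℤ Q :=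
  ev_mem fun l hl => h l (hc hl)

lemma o_supported {l : List α} {P : Set (List α)} (h : l ∈ P) :
    o l ∈ Finsupp.supported ℤ ℤ P :=
  Finsupp.single_mem_supported ℤ _ h

lemma cone_supported {x : α} {c : Ch α} {P Q : Set (List α)}
    (hc : c ∈ Finsupp.supported ℤ ℤ P) (h : ∀ l ∈ P, x :: l ∈ Q) :
    cone x c ∈ Finsupp.supported ℤ ℤ Q :=
  ev_supported hc fun l hl => o_supported (h l hl)

lemma bd_supported (l : List α) :
    bd l ∈ Finsupp.supported ℤ ℤ {v : List α | v.Sublist l ∧ v.length + 1 = l.length} := by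
  induction l with
  | nil => exact Submodule.zero_mem _
  | cons x l ih =>
    refine Submodule.sub_mem _ (o_supported ⟨List.sublist_cons_self x l, by simp⟩) ?_
    refine cone_supported ih ?_
    rintro v ⟨h1, h2⟩
    exact ⟨h1.cons_cons x, by simp [← h2]⟩

/-- chain map identity -/
lemma chainmap {T : ℕ → List α → Ch α} (h0 : ∀ l, T 0 l = o l)
    (hs : ∀ n l, ∃ y, T (n+1) l = cone y (ev (T n) (bd l))) (n : ℕ) (l : List α) :
    Bd (T (n+1) l) = ev (T n) (bd l) := by
  induction n generalizing l with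
  | zero =>
    obtain ⟨y, hy⟩ := hs 0 l
    have : ev (T 0) (bd l) = bd l := by
      have : T 0 = o := funext h0
      rw [this]; exact ev_o_id _
    rw [hy, Bd_cone, this, Bd_bd, map_zero, sub_zero]
  | succ n ih =>
    obtain ⟨y, hy⟩ := hs (n+1) l
    rw [hy, Bd_cone, map_ev Bd]
    simp only [ih]
    rw [ev_bd, Bd_bd, map_zero, map_zero, sub_zero]

/-- homotopy identity -/
lemma homotopy {T D : ℕ → List α → Ch α} (h0 : ∀ l, T 0 l = o l)
    (hs : ∀ n l, ∃ y, T (n+1) l = cone y (ev (T n) (bd l))) (d0 : ∀ l, D 0 l = 0)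
    (ds : ∀ n l, ∃ z, D (n+1) l = cone z (o l - T (n+1) l - ev (D n) (bd l))) (n : ℕ)
    (l : List α) : Bd (D (n+1) l) = o l - T (n+1) l - ev (D n) (bd l) := by
  induction n generalizing l with
  | zero =>
    obtain ⟨z, hz⟩ := ds 0 l
    have e1 : ev (D 0) (bd l) = 0 := by
      rw [ev_congr (θ' := fun _ => 0) (fun v _ => d0 v)]
      simp [ev, Finsupp.linearCombination_apply]
    have e2 : ev (T 0) (bd l) = bd l := by
      have : T 0 = o := funext h0
      rw [this]; exact ev_o_id _
    rw [hz, Bd_cone, e1, sub_zero, map_sub, Bd_o, chainmap h0 hs, e2, sub_self, map_zero, sub_zero]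
  | succ n ih =>
    obtain ⟨z, hz⟩ := ds (n+1) l
    rw [hz, Bd_cone]
    have : Bd (o l - T (n+1+1) l - ev (D (n+1)) (bd l)) = 0 := by
      rw [map_sub, map_sub, Bd_o, chainmap h0 hs, map_ev Bd]
      simp only [ih]
      have e : ev (fun l => o l - T (n+1) l - ev (D n) (bd l)) (bd l)
          = bd l - ev (T (n+1)) (bd l) - ev (D n) (Bd (bd l)) := by
        rw [← ev_bd]
        have h1 : ev (fun l => o l - T (n+1) l - ev (D n) (bd l)) (bd l)
            + ev (fun l => ev (D n) (bd l)) (bd l) + ev (fun l => T (n+1) l) (bd l) = bd l := by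
          rw [← ev_add, ← ev_add]
          simp only [sub_add_cancel]
          exact ev_o_id _
        rw [eq_sub_iff_add_eq, eq_sub_iff_add_eq]
        exact h1
      rw [e, Bd_bd, map_zero, sub_zero, sub_self]
    rw [this, map_zero, sub_zero]

end Pool.Agent.Helper84.Coh
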