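import Pool.Agent.Helper84.Coh.Space

/-!
The decision theorem for countable measurable covers of finite powers of Baire space.
-/

namespace Pool.Agent.Helper84.Coh

open Set Filter Topology MeasureTheory

lemma continuous_val : Continuous LN.val := by
  rw [continuous_def]
  intro W hW x hx
  -- find a cylinder around `x.val` inside `W`
  have hx' : x.val ∈ W := hx
  rw [isOpen_pi_iff] at hW
  obtain ⟨I, u, hu, hsub⟩ := hW x.val hx'
  obtain ⟨k, hk⟩ : ∃ k, ∀ i ∈ I, i < k := ⟨I.sup id + 1, fun i hi => Nat.lt_succ_of_le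
    (Finset.le_sup (f := id) hi)⟩
  refine ⟨res x.val k, fun _ => 0, ⟨by simp, fun _ _ => Nat.zero_le _⟩, ?_⟩
  rintro y ⟨h1, -⟩
  rw [length_res] at h1
  apply hsub
  intro i hi
  rw [(res_eq_iff.1 h1) i (hk i hi)]
  exact (hu i hi).2

lemma baire_preimage {W : Set (ℕ → ℕ)} (hW : MeasurableSet W) :
    BaireMeasurableSet (LN.val ⁻¹' W) := by
  borelize LN
  exact (continuous_val.measurable hW).baireMeasurableSet

instance instLN : MeasurableSpace LN := MeasurableSpace.comap LN.val inferInstance

lemma measurable_val : Measurable LN.val := comap_measurable _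

lemma baire_of_measurable {V : Set LN} (hV : MeasurableSet V) : BaireMeasurableSet V := by
  obtain ⟨W, hW, rfl⟩ := hV
  exact baire_preimage hW

lemma step_le {Ω : Type} (g : GSpace Ω) (m₀ : MeasurableSpace Ω) (h : m₀ ≤ g.m) :
    m₀.prod instLN ≤ g.step.m := by
  refine sup_le ?_ ?_
  · rintro _ ⟨E, hE, rfl⟩
    refine ⟨?_, fun t => ?_⟩
    · refine Eventually.of_forall fun x => ?_
      by_cases hx : x ∈ E
      · have : sec (Prod.fst ⁻¹' E) x = univ := by
          ext y; simp [sec, hx]
        rw [this]; exact isOpen_univ.baireMeasurableSet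
      · have : sec (Prod.fst ⁻¹' E) x = ∅ := by
          ext y; simp [sec, hx]
        rw [this]; exact isOpen_empty.baireMeasurableSet
    · have : {x | sec (Prod.fst ⁻¹' E) x ∈ G t} = E := by
        ext x
        by_cases hx : x ∈ E
        · have h1 : sec (Prod.fst ⁻¹' E) x = univ := by
            ext y; simp [sec, hx]
          simp [h1, hx]
        · have h1 : sec (Prod.fst ⁻¹' E) x = ∅ := by
            ext y; simp [sec, hx]
          simp only [mem_ofPred_eq, h1, hx, iff_false]
          exact Filter.empty_notMem (G t)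
      rw [this]
      exact h E hE
  · rintro _ ⟨V, hV, rfl⟩
    have h1 : ∀ x : Ω, sec (Prod.snd ⁻¹' V) x = V := fun x => by ext y; simp [sec]
    refine ⟨?_, fun t => ?_⟩
    · refine Eventually.of_forall fun x => ?_
      rw [h1]
      exact baire_of_measurable hV
    · simp only [h1]
      exact @MeasurableSet.const Ω g.m _

/-- iterated products of Baire space -/
def Om : ℕ → Type
  | 0 => Unit
  | n+1 => Om n × LN

instance instOm : ∀ n, MeasurableSpace (Om n)
  | 0 => (inferInstance : MeasurableSpace Unit)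
  | n+1 => (instOm n).prod instLN

/-- The one point space -/
def GSpace.unit : GSpace Unit where
  m := ⊤
  l := ⊤
  ci := by infer_instance
  complete := fun _ _ _ _ => trivial
  ccc := fun S _ _ => by
    have : S.Finite := Set.toFinite S
    exact this.countable

/-- the iterated spaces -/
def gsp : ∀ n, GSpace (Om n)
  | 0 => GSpace.unit
  | n+1 => (gsp n).step

lemma instOm_le : ∀ n, instOm n ≤ (gsp n).m
  | 0 => fun _ _ => trivial
  | n+1 => step_le (gsp n) (instOm n) (instOm_le n)

/-- the list of a point of an iterated product; the last coordinate is the head. -/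
def toL : ∀ n, Om n → List (ℕ → ℕ)
  | 0, _ => []
  | n+1, ω => ω.2.val :: toL n ω.1

lemma length_toL : ∀ n (ω : Om n), (toL n ω).length = n
  | 0, _ => rfl
  | n+1, ω => by simp [toL, length_toL n ω.1]

theorem decide_aux (n : ℕ) : ∀ {J : Type} [Countable J] (Q : J → List (ℕ → ℕ) → Prop)
    (lam : J → ℕ) (_ : ∀ j, MeasurableSet[(gsp n).m] {ω | Q j (toL n ω)})
    (_ : ∀ᶠ ω in (gsp n).l, ∃ j, Q j (toL n ω)),
    ∃ j, ∃ t : ℕ → List ℕ, (∀ i k, i ≤ k → k < n → (t k).length ≤ (t i).length) ∧
      (∀ i < n, lam j ≤ (t i).length) ∧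
      ∃ C : Set (List (ℕ → ℕ)), [] ∈ C ∧
        (∀ ω ∈ C, ω.length < n → ∀ᶠ d in G (t ω.length), (d.val :: ω) ∈ C) ∧
        ∀ ω ∈ C, ω.length = n → Q j ω := by
  induction n with
  | zero =>
    intro J _ Q lam hm hcov
    have h1 : ∀ ω : Unit, ∃ j, Q j [] := by
      have h2 : ∀ᶠ ω in (⊤ : Filter Unit), ∃ j, Q j [] := hcov
      simpa using h2
    obtain ⟨j, hj⟩ := h1 ()
    refine ⟨j, fun _ => [], fun i k _ hk => by omega, fun i hi => by omega, {[]}, rfl, ?_, ?_⟩
    · intro ω _ h; omega
    · rintro ω hω _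
      rw [mem_singleton_iff] at hω
      rw [hω]; exact hj
  | succ n ih =>
    intro J _ Q lam hm hcov
    let J' := {p : List ℕ × J // lam p.2 ≤ p.1.length}
    let Q' : J' → List (ℕ → ℕ) → Prop := fun p ω => ∀ᶠ d in G p.1.1, Q p.1.2 (d.val :: ω)
    let lam' : J' → ℕ := fun p => p.1.1.length
    have hm' : ∀ p, MeasurableSet[(gsp n).m] {ω | Q' p (toL n ω)} := by
      rintro ⟨⟨s, j⟩, hp⟩
      exact (hm j).2 s
    have hcov' : ∀ᶠ ω in (gsp n).l, ∃ p, Q' p (toL n ω) := by
      have hci := (gsp n).ci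
      have h1 : ∀ᶠ ω in (gsp n).l, ∀ᶠ d in residual LN, ∃ j, Q j (d.val :: toL n ω) :=
        Filter.eventually_curry_iff.1 hcov
      have h2 : ∀ᶠ ω in (gsp n).l, ∀ j, BaireMeasurableSet (sec {ω | Q j (toL (n+1) ω)} ω) :=
        eventually_countable_forall.2 fun j => (hm j).1
      filter_upwards [h1, h2] with ω hω1 hω2
      by_contra hcon
      push Not at hcon
      have h3 : ∀ j, ∀ᶠ d in residual LN, ¬ Q j (d.val :: toL n ω) := by
        intro j
        by_contra hc
        obtain ⟨y, _, k, hk, hG⟩ := exists_large (U := univ) (hω2 j) (fun h => hc (by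
          filter_upwards [h] with y hy using hy (mem_univ _))) (lam j)
        exact hcon ⟨(res y.val k, j), by simpa using hk⟩ hG
      have h4 := eventually_countable_forall.2 h3
      obtain ⟨x, -, hx1, hx2⟩ := residual_open_nonempty isOpen_univ univ_nonempty (h4.and hω1)
      obtain ⟨j, hj⟩ := hx2
      exact hx1 j hj
    obtain ⟨⟨⟨s, j⟩, hp⟩, t, ht1, ht2, C, hC0, hC1, hC2⟩ := ih Q' lam' hm' hcov'
    refine ⟨j, fun i => if i < n then t i else s, ?_, ?_,
      {ω | (ω ∈ C ∧ ω.length ≤ n) ∨ ∃ ω' ∈ C, ω'.length = n ∧ ∃ d, ω = d :: ω' ∧ Q j ω},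
      Or.inl ⟨hC0, by simp⟩, ?_, ?_⟩
    · intro i k hik hk
      by_cases hkn : k < n
      · simp only [hkn, show i < n by omega, if_true]
        exact ht1 i k hik hkn
      · simp only [hkn, if_false]
        by_cases hin : i < n
        · simp only [hin, if_true]
          exact ht2 i hin
        · simp [hin]
    · intro i hi
      by_cases hin : i < n
      · simp only [hin, if_true]
        exact hp.trans (ht2 i hin)
      · simp only [hin, if_false]
        exact hp
    · rintro ω hω hlen
      rcases hω with ⟨hω, hle⟩ | ⟨ω', hω', hl, d, rfl, _⟩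
      · rcases hle.lt_or_eq with hlt | heq
        · simp only [hlt, if_true]
          filter_upwards [hC1 ω hω hlt] with d hd
          exact Or.inl ⟨hd, by simpa using hlt⟩
        · simp only [heq, lt_irrefl, if_false]
          have h5 := hC2 ω hω heq
          filter_upwards [h5] with d hd
          exact Or.inr ⟨ω, hω, heq, d.val, rfl, hd⟩
      · simp [hl] at hlen
    · rintro ω hω hlen
      rcases hω with ⟨hω, hle⟩ | ⟨ω', hω', hl, d, rfl, h⟩
      · omega
      · exact h

/-- The decision theorem. -/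
theorem decision (n : ℕ) {J : Type} [Countable J] (Q : J → List (ℕ → ℕ) → Prop)
    (hm : ∀ j, MeasurableSet {ω : Om n | Q j (toL n ω)})
    (hcov : ∀ ω, ω.length = n → ∃ j, Q j ω) :
    ∃ j, ∃ t : ℕ → List ℕ, (∀ i k, i ≤ k → k < n → (t k).length ≤ (t i).length) ∧
      ∃ C : Set (List (ℕ → ℕ)), [] ∈ C ∧
        (∀ ω ∈ C, ω.length < n → ∀ᶠ d in G (t ω.length), (d.val :: ω) ∈ C) ∧
        ∀ ω ∈ C, ω.length = n → Q j ω := by
  obtain ⟨j, t, h1, _, C, h2⟩ := decide_aux n Q (fun _ => 0) (fun j => instOm_le n _ (hm j))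
    (Eventually.of_forall fun ω => hcov _ (length_toL n ω))
  exact ⟨j, t, h1, C, h2⟩

end Pool.Agent.Helper84.Coh
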