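import Mathlib

/-!
Higher coherent families on Baire space: definitions.
-/

namespace Pool.Agent.Helper84.Coh

open Set

/-- `NTup n` is the set of increasing `n`-tuples `f_0 ≤ ... ≤ f_{n-1}` of elements of Baire space. -/
def NTup (n : ℕ) : Type := {f : Fin n → (ℕ → ℕ) // Monotone f}

/-- The domain of the function indexed by `f`: the region `I_{f_0} = {(i,j) : j ≤ f_0 i}` if
`n > 0`, and all of `ℕ × ℕ` if `n = 0`. -/
def NTup.dom {n : ℕ} (f : NTup n) : Set (ℕ × ℕ) := {p | ∀ h : 0 < n, p.2 ≤ f.1 ⟨0, h⟩ p.1}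

/-- The tuple `f` with the entry number `i` removed. -/
def NTup.remove {n : ℕ} (f : NTup (n + 1)) (i : Fin (n + 1)) : NTup n :=
  ⟨fun j => f.1 (i.succAbove j), fun _ _ h => f.2 (Fin.strictMono_succAbove i |>.monotone h)⟩

/-- A family of functions `φ_f : dom f → ℤ` indexed by the increasing `n`-tuples. -/
def Family (n : ℕ) : Type := (f : NTup n) → f.dom → ℤ

open Classical in
/-- The extension of the function `φ_f` by zero to `ℕ × ℕ`. -/
noncomputable def Family.ext {n : ℕ} (Φ : Family n) (f : NTup n) : ℕ × ℕ → ℤ :=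
  fun p => if h : p ∈ f.dom then Φ f ⟨p, h⟩ else 0

/-- `n`-coherence: for every increasing tuple `(f_0, ..., f_n)` the alternating sum of the
functions indexed by its faces vanishes at all but finitely many points of `I_{f_0}`. -/
def Family.Coherent {n : ℕ} (Φ : Family n) : Prop :=
  ∀ f : NTup (n + 1), {p : ℕ × ℕ | p ∈ f.dom ∧
    ∑ i : Fin (n + 1), (-1 : ℤ) ^ (i : ℕ) * Φ.ext (f.remove i) p ≠ 0}.Finite

/-- `n`-triviality for `n = m + 1`: there is a family indexed by the increasing `m`-tuples such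
that, for every increasing `n`-tuple `f`, the alternating sum of its members at the faces of `f`
agrees with `φ_f` at all but finitely many points of `I_{f_0}`. -/
def Family.IsTriv {m : ℕ} (Φ : Family (m + 1)) : Prop :=
  ∃ Ψ : Family m, ∀ f : NTup (m + 1), {p : ℕ × ℕ | p ∈ f.dom ∧
    ∑ i : Fin (m + 1), (-1 : ℤ) ^ (i : ℕ) * Ψ.ext (f.remove i) p ≠ Φ.ext f p}.Finite

/-- The graph of the map which sends an increasing `n`-tuple `f` to the extension of `φ_f` by
zero, as a subset of the Polish space `(ℕ^ℕ)^n × ℤ^(ℕ × ℕ)`. -/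
def Family.graph {n : ℕ} (Φ : Family n) : Set ((Fin n → (ℕ → ℕ)) × (ℕ × ℕ → ℤ)) :=
  {q | ∃ h : Monotone q.1, q.2 = Φ.ext ⟨q.1, h⟩}

/-- A family is analytic if its graph is an analytic set. -/
def Family.IsAnalytic {n : ℕ} (Φ : Family n) : Prop := MeasureTheory.AnalyticSet Φ.graph

end Pool.Agent.Helper84.Coh
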