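import Pool.Agent.Helper84.Coh.Main
import Pool.Agent.Helper84.Coh.Defs

/-!
From tuples to lists and back; analytic families are Borel.
-/

namespace Pool.Agent.Helper84.Coh

open Set Filter Topology MeasureTheory

/-- The tuple of a list, reversed -/
def tup (n : ℕ) (l : List (ℕ → ℕ)) : Fin n → (ℕ → ℕ) := fun i => l.getD (n - 1 - i) 0

/-- The list of a tuple, reversed -/
def lst {n : ℕ} (f : Fin n → (ℕ → ℕ)) : List (ℕ → ℕ) := List.ofFn (fun i => f i.rev)

lemma length_lst {n : ℕ} (f : Fin n → (ℕ → ℕ)) : (lst f).length = n := by simp [lst]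

lemma tup_lst {n : ℕ} (f : Fin n → (ℕ → ℕ)) : tup n (lst f) = f := by
  funext i
  have hi := i.2
  have h : n - 1 - (i : ℕ) < (lst f).length := by rw [length_lst]; omega
  unfold tup
  rw [List.getD_eq_getElem _ _ h]
  simp only [lst, List.getElem_ofFn]
  congr 1
  ext
  simp [Fin.rev]
  omega

lemma lst_tup {n : ℕ} {l : List (ℕ → ℕ)} (h : l.length = n) : lst (tup n l) = l := by
  apply List.ext_getElem
  · rw [length_lst, h]
  · intro i h1 h2
    simp only [lst, List.getElem_ofFn, tup]
    rw [List.getD_eq_getElem]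
    · congr 1
      simp [Fin.rev]
      omega
    · simp [Fin.rev]
      omega

lemma tup_cons (n : ℕ) (x : ℕ → ℕ) (l : List (ℕ → ℕ)) :
    tup (n+1) (x :: l) = Fin.snoc (α := fun _ => ℕ → ℕ) (tup n l) x := by
  funext i
  refine Fin.lastCases ?_ (fun j => ?_) i
  · simp [tup]
  · rw [Fin.snoc_castSucc]
    unfold tup
    have hj := j.2
    have : n + 1 - 1 - ((j.castSucc : Fin (n+1)) : ℕ) = (n - 1 - j) + 1 := by
      simp; omega
    rw [this, List.getD_cons_succ]

lemma snoc_comp_castSucc {n : ℕ} (g : Fin (n+1) → (ℕ → ℕ)) (x : ℕ → ℕ) (i : Fin (n+1)) :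
    (fun j => (Fin.snoc (α := fun _ => ℕ → ℕ) g x : Fin (n+2) → (ℕ → ℕ))
      (i.castSucc.succAbove j)) =
    (Fin.snoc (α := fun _ => ℕ → ℕ) (fun j => g (i.succAbove j)) x : Fin (n+1) → (ℕ → ℕ)) := by
  funext j
  refine Fin.lastCases ?_ (fun j => ?_) j
  · rw [Fin.snoc_last, Fin.succAbove_ne_last_last (Fin.castSucc_lt_last i).ne, Fin.snoc_last]
  · rw [Fin.snoc_castSucc, Fin.castSucc_succAbove_castSucc, Fin.snoc_castSucc]

lemma snoc_comp_last {n : ℕ} (g : Fin (n+1) → (ℕ → ℕ)) (x : ℕ → ℕ) :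
    (fun j => (Fin.snoc (α := fun _ => ℕ → ℕ) g x : Fin (n+2) → (ℕ → ℕ))
      ((Fin.last (n+1)).succAbove j)) = g := by
  funext j
  rw [Fin.succAbove_last_apply, Fin.snoc_castSucc]

lemma bridge {G : Type} [AddCommGroup G] (n : ℕ) : ∀ (θ : (Fin n → (ℕ → ℕ)) → G)
    (l : List (ℕ → ℕ)), l.length = n + 1 → ev (fun v => θ (tup n v)) (bd l) =
      (-1 : ℤ) ^ n • ∑ i : Fin (n+1), (-1 : ℤ) ^ (i : ℕ) •
        θ (fun j => tup (n+1) l (i.succAbove j)) := by
  induction n with
  | zero =>
    intro θ l hl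
    obtain ⟨x, rfl⟩ := List.length_eq_one_iff.1 hl
    simp only [bd, map_zero, sub_zero, ev_o, pow_zero, one_smul, Fin.sum_univ_succ,
      Finset.univ_eq_empty, Finset.sum_empty, add_zero, Fin.val_zero]
    congr 1
    exact Subsingleton.elim _ _
  | succ n ih =>
    intro θ l hl
    cases l with
    | nil => simp at hl
    | cons x l =>
      have hl' : l.length = n + 1 := by simpa using hl
      have e1 : ev (fun v => θ (tup (n+1) v)) (bd (x :: l)) = θ (tup (n+1) l) -
          ev (fun v => (fun g => θ (Fin.snoc (α := fun _ => ℕ → ℕ) g x)) (tup n v)) (bd l) := by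
        have h1 : ev (fun v => θ (tup (n+1) v)) (cone x (bd l)) =
            ev (fun v => ev (fun v => θ (tup (n+1) v)) (o (x :: v))) (bd l) :=
          map_ev (ev (fun v => θ (tup (n+1) v))) _ _
        show ev (fun v => θ (tup (n+1) v)) (o l - cone x (bd l)) = _
        rw [map_sub, ev_o, h1]
        congr 1
        refine ev_congr fun v _ => ?_
        rw [ev_o, tup_cons]
      rw [e1, ih (fun g => θ (Fin.snoc (α := fun _ => ℕ → ℕ) g x)) l hl',
        Fin.sum_univ_castSucc (n := n + 1), tup_cons]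
      rw [snoc_comp_last]
      simp only [snoc_comp_castSucc, Fin.val_castSucc, Fin.val_last, smul_add, smul_smul]
      rw [← mul_pow]
      simp only [mul_neg, mul_one, neg_neg, one_pow, one_smul]
      rw [pow_succ]
      simp only [mul_neg, mul_one, neg_smul]
      abel

/-- The total function associated with a family. -/
noncomputable def Family.tot {n : ℕ} (Φ : Family n) (f : Fin n → (ℕ → ℕ)) : ℕ × ℕ → ℤ := by
  classical
  exact if h : Monotone f then Φ.ext ⟨f, h⟩ else 0

lemma Family.tot_eq {n : ℕ} (Φ : Family n) (f : NTup n) : Φ.tot f.1 = Φ.ext f := by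
  unfold Family.tot
  rw [dif_pos f.2]
  rfl

lemma polish_aux (n : ℕ) : PolishSpace ((Fin n → ℕ → ℕ) × (ℕ × ℕ → ℤ)) := by
  have h1 : SecondCountableTopology ((Fin n → ℕ → ℕ) × (ℕ × ℕ → ℤ)) := inferInstance
  have h2 : TopologicalSpace.IsCompletelyMetrizableSpace ((Fin n → ℕ → ℕ) × (ℕ × ℕ → ℤ)) :=
    inferInstance
  exact { }

/-- values of an analytic family at a point are Borel -/
lemma measurable_tot {n : ℕ} {Φ : Family n} (h : Φ.IsAnalytic) (p : ℕ × ℕ) :
    Measurable (fun f => Φ.tot f p) := by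
  have hS : ∀ z : ℤ, AnalyticSet {f : Fin n → (ℕ → ℕ) | Monotone f ∧ Φ.tot f p = z} := by
    intro z
    have hpol := polish_aux n
    have h1 : AnalyticSet {q : (Fin n → (ℕ → ℕ)) × (ℕ × ℕ → ℤ) | q.2 p = z} := by
      apply IsClosed.analyticSet
      exact isClosed_eq (by fun_prop) continuous_const
    have h2 : AnalyticSet (Φ.graph ∩ {q | q.2 p = z}) := by
      have : Φ.graph ∩ {q | q.2 p = z} = ⋂ b : Bool, (if b then Φ.graph else {q | q.2 p = z}) := by
        ext q
        simp only [mem_inter_iff, mem_iInter, Bool.forall_bool]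
        simp [and_comm]
      rw [this]
      refine AnalyticSet.iInter fun b => ?_
      cases b
      · simpa using h1
      · have h' : AnalyticSet Φ.graph := h
        simpa using h'
    have h3 := h2.image_of_continuous continuous_fst
    convert h3 using 1
    ext f
    constructor
    · rintro ⟨hf, hz⟩
      refine ⟨(f, Φ.ext ⟨f, hf⟩), ⟨⟨hf, rfl⟩, ?_⟩, rfl⟩
      show Φ.ext ⟨f, hf⟩ p = z
      rw [← hz, ← Φ.tot_eq ⟨f, hf⟩]
    · rintro ⟨⟨f', g⟩, ⟨⟨hf, hg⟩, hz⟩, rfl⟩
      refine ⟨hf, ?_⟩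
      have h5 := Φ.tot_eq ⟨f', hf⟩
      show Φ.tot f' p = z
      have h6 : g = Φ.ext ⟨f', hf⟩ := hg
      have h7 : g p = z := hz
      rw [← h7, h6, ← h5]
  have hmono : IsClosed {f : Fin n → (ℕ → ℕ) | Monotone f} := isClosed_monotone
  have hB : ∀ z : ℤ, MeasurableSet {f : Fin n → (ℕ → ℕ) | Monotone f ∧ Φ.tot f p = z} := by
    intro z
    refine (hS z).measurableSet_of_compl ?_
    have : {f : Fin n → (ℕ → ℕ) | Monotone f ∧ Φ.tot f p = z}ᶜ =
        ⋃ o : Option {z' : ℤ // z' ≠ z}, (match o with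
          | none => {f : Fin n → (ℕ → ℕ) | Monotone f}ᶜ
          | some z' => {f : Fin n → (ℕ → ℕ) | Monotone f ∧ Φ.tot f p = z'.1}) := by
      ext f
      simp only [mem_compl_iff, mem_ofPred_eq, mem_iUnion, Option.exists, not_and]
      constructor
      · intro h1
        by_cases hf : Monotone f
        · exact Or.inr ⟨⟨Φ.tot f p, h1 hf⟩, hf, rfl⟩
        · exact Or.inl hf
      · rintro (h1 | ⟨⟨z', hz'⟩, hf, hz⟩)
        · exact fun h2 => absurd h2 h1
        · intro _ h3
          apply hz'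
          have hz2 : Φ.tot f p = z' := hz
          rw [← hz2, h3]
    rw [this]
    refine AnalyticSet.iUnion fun o => ?_
    cases o with
    | none => exact hmono.isOpen_compl.measurableSet.analyticSet
    | some z' => exact hS z'.1
  refine measurable_to_countable' fun z => ?_
  have : (fun f => Φ.tot f p) ⁻¹' {z} =
      {f : Fin n → (ℕ → ℕ) | Monotone f ∧ Φ.tot f p = z} ∪
        ({f : Fin n → (ℕ → ℕ) | Monotone f}ᶜ ∩ {_f | (0 : ℤ) = z}) := by
    ext f
    simp only [mem_preimage, mem_singleton_iff, mem_union, mem_ofPred_eq, mem_inter_iff,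
      mem_compl_iff]
    by_cases hf : Monotone f
    · simp [hf]
    · have : Φ.tot f p = 0 := by
        unfold Family.tot
        rw [dif_neg hf]; rfl
      simp [hf, this]
  rw [this]
  exact (hB z).union (hmono.measurableSet.compl.inter (MeasurableSet.const _))

lemma measurable_hj (a : ℕ → ℕ) (n : ℕ) : Measurable (fun ω : Om n => hj a (toL n ω)) := by
  induction n with
  | zero => exact measurable_const
  | succ n ih =>
    have h1 : Measurable (fun ω : Om (n+1) => hj a (toL n ω.1)) := ih.comp measurable_fst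
    have h2 : Measurable (fun ω : Om (n+1) => ω.2.val) := measurable_val.comp measurable_snd
    rw [measurable_pi_iff] at h1 h2 ⊢
    intro k
    exact (h1 k).max (h2 k)

lemma measurable_cl (a : ℕ → ℕ) (n : ℕ) : ∀ j, Measurable (fun ω : Om n =>
    (cl a (toL n ω)).getD j 0) := by
  induction n with
  | zero =>
    intro j
    have : (fun ω : Om 0 => (cl a (toL 0 ω)).getD j 0) = fun _ => [a].getD j 0 := by
      funext ω
      rfl
    rw [this]
    exact measurable_const
  | succ n ih =>
    intro j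
    cases j with
    | zero =>
      have : (fun ω : Om (n+1) => (cl a (toL (n+1) ω)).getD 0 0) =
          fun ω => hj a (toL (n+1) ω) := by
        funext ω
        rfl
      rw [this]
      exact measurable_hj a (n+1)
    | succ j =>
      have : (fun ω : Om (n+1) => (cl a (toL (n+1) ω)).getD (j+1) 0) =
          fun ω => (cl a (toL n ω.1)).getD j 0 := by
        funext ω
        rfl
      rw [this]
      exact (ih j).comp measurable_fst

theorem family_triv (M : ℕ) (Φ : Family (M+1)) (hcoh : Φ.Coherent) (han : Φ.IsAnalytic) :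
    Φ.IsTriv := by
  classical
  let ΦL : List (ℕ → ℕ) → ℕ × ℕ → ℤ := fun l => Φ.tot (tup (M+1) l)
  have tup_mono : ∀ (n : ℕ) (v : List (ℕ → ℕ)), Srt v → v.length = n → Monotone (tup n v) := by
    intro n v hs hl i j hij
    rcases hij.eq_or_lt with rfl | hlt
    · exact le_rfl
    have hi := i.2
    have hj := j.2
    have hlt' : (i : ℕ) < j := hlt
    unfold tup
    rw [List.getD_eq_getElem _ _ (by omega), List.getD_eq_getElem _ _ (by omega)]
    exact List.pairwise_iff_getElem.1 hs _ _ (by omega) (by omega) (by omega)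
  have tup_zero : ∀ (n : ℕ) (v : List (ℕ → ℕ)), v.length = n + 1 → ∀ m, v.getLast? = some m →
      tup (n+1) v 0 = m := by
    intro n v hl m hm
    unfold tup
    have : v ≠ [] := by intro h; simp [h] at hl
    rw [List.getLast?_eq_getElem?] at hm
    simp only [Fin.val_zero, add_tsub_cancel_right, tsub_zero]
    rw [hl] at hm
    simp only [add_tsub_cancel_right] at hm
    rw [List.getD_eq_getElem?_getD, hm]
    rfl
  have hbr : ∀ v : List (ℕ → ℕ), v.length = M + 2 → ev ΦL (bd v) =
      (-1 : ℤ) ^ (M+1) • ∑ i : Fin (M+2), (-1 : ℤ) ^ (i : ℕ) •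
        Φ.tot (fun j => tup (M+2) v (i.succAbove j)) :=
    fun v hv => bridge (M+1) Φ.tot v hv
  have hcoh' : ∀ v, Srt v → v.length = M + 2 → ∀ m, v.getLast? = some m →
      ev ΦL (bd v) ∈ ZF m := by
    intro v hs hl m hm
    rw [hbr v hl]
    refine Submodule.smul_mem _ _ ?_
    let f : NTup (M+2) := ⟨tup (M+2) v, tup_mono _ v hs hl⟩
    refine (hcoh f).subset ?_
    rintro p ⟨hp, hne⟩
    refine ⟨?_, ?_⟩
    · intro _
      have := tup_zero (M+1) v hl m hm
      show p.2 ≤ tup (M+2) v 0 p.1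
      rw [this]
      exact hp
    · intro h0
      apply hne
      rw [← h0, Finset.sum_apply]
      refine Finset.sum_congr rfl fun i _ => ?_
      have := Φ.tot_eq (f.remove i)
      rw [← this]
      simp only [Pi.smul_apply, smul_eq_mul]
      rfl
  have hmeas : ∀ (a : ℕ → ℕ) (F : Finset (ℕ × ℕ)), MeasurableSet {ω : Om (M+1) |
      {p | p ∈ Ig a ∧ ev ΦL (bd (cl a (toL (M+1) ω))) p ≠ 0} = (F : Set (ℕ × ℕ))} := by
    intro a F
    have hg : ∀ p, Measurable (fun ω : Om (M+1) => ev ΦL (bd (cl a (toL (M+1) ω))) p) := by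
      intro p
      have h1 : (fun ω : Om (M+1) => ev ΦL (bd (cl a (toL (M+1) ω))) p) = fun ω =>
          (-1 : ℤ) ^ (M+1) * ∑ i : Fin (M+2), (-1 : ℤ) ^ (i : ℕ) *
            Φ.tot (fun j => tup (M+2) (cl a (toL (M+1) ω)) (i.succAbove j)) p := by
        funext ω
        rw [hbr _ (by rw [length_cl, length_toL])]
        simp [Finset.sum_apply]
      rw [h1]
      refine Measurable.const_mul (Finset.measurable_sum _ fun i _ => Measurable.const_mul ?_ _) _
      refine (measurable_tot han p).comp ?_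
      rw [measurable_pi_iff]
      intro j
      exact measurable_cl a (M+1) _
    have h2 : {ω : Om (M+1) | {p | p ∈ Ig a ∧ ev ΦL (bd (cl a (toL (M+1) ω))) p ≠ 0} =
        (F : Set (ℕ × ℕ))} = ⋂ p : ℕ × ℕ, {ω : Om (M+1) |
          (p ∈ Ig a ∧ ev ΦL (bd (cl a (toL (M+1) ω))) p ≠ 0) ↔ p ∈ F} := by
      ext ω
      simp only [mem_ofPred_eq, mem_iInter, Set.ext_iff]
      rfl
    rw [h2]
    refine MeasurableSet.iInter fun p => ?_
    have h3 : MeasurableSet {ω : Om (M+1) | ev ΦL (bd (cl a (toL (M+1) ω))) p = 0} :=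
      hg p (measurableSet_singleton 0)
    by_cases ha : p ∈ Ig a
    · by_cases hF : p ∈ F
      · convert h3.compl using 1
        ext ω
        simp [ha, hF]
      · convert h3 using 1
        ext ω
        simp [ha, hF]
    · by_cases hF : p ∈ F
      · convert MeasurableSet.empty using 1
        ext ω
        simp [ha, hF]
      · convert MeasurableSet.univ using 1
        ext ω
        simp [ha, hF]
  obtain ⟨Ψ, hΨ⟩ := list_main M ΦL hcoh' hmeas
  refine ⟨fun g p => (-1 : ℤ) ^ M * Ψ (lst g.1) p.1, fun f => ?_⟩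
  set l := lst f.1 with hldef
  have hll : l.length = M + 1 := length_lst _
  have hls : Srt l := by
    unfold Srt
    rw [List.pairwise_iff_getElem]
    intro i j hi hj hij
    simp only [hldef, lst, List.getElem_ofFn]
    apply f.2
    rw [Fin.le_iff_val_le_val]
    simp [Fin.rev]
    omega
  have htl : tup (M+1) l = f.1 := tup_lst _
  have hlast : l.getLast? = some (f.1 0) := by
    obtain ⟨m, hm⟩ : ∃ m, l.getLast? = some m := by
      have hne : l ≠ [] := by intro h; simp [h] at hll
      exact ⟨_, List.getLast?_eq_some_getLast hne⟩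
    rw [hm, ← tup_zero M l hll m hm, htl]
  have h1 := hΨ l hls hll _ hlast
  have h2 : ev Ψ (bd l) = (-1 : ℤ) ^ M • ∑ i : Fin (M+1), (-1 : ℤ) ^ (i : ℕ) •
      Ψ (lst (fun j => f.1 (i.succAbove j))) := by
    have h3 : ev Ψ (bd l) = ev (fun v => Ψ (lst (tup M v))) (bd l) := by
      refine ev_congr fun v hv => ?_
      have := ((Finsupp.mem_supported ℤ _).1 (bd_supported l)) hv
      rw [lst_tup (by have := this.2; omega)]
    rw [h3, bridge M (fun g => Ψ (lst g)) l hll, htl]
  refine (mem_ZF.1 h1).subset ?_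
  rintro p ⟨hp, hne⟩
  have hp0 : p.2 ≤ f.1 0 p.1 := hp (Nat.succ_pos M)
  refine ⟨hp0, fun h0 => hne ?_⟩
  have h4 : ΦL l p = ev Ψ (bd l) p := by
    rw [Pi.sub_apply, sub_eq_zero] at h0
    exact h0
  have h5 : ΦL l = Φ.ext f := by
    show Φ.tot (tup (M+1) l) = _
    rw [htl, Φ.tot_eq]
  rw [← h5, h4, h2]
  simp only [Pi.smul_apply, Finset.sum_apply, smul_eq_mul, Finset.mul_sum]
  refine Finset.sum_congr rfl fun i _ => ?_
  have h6 : p ∈ (f.remove i).dom := by
    intro hM
    refine hp0.trans (f.2 (Fin.zero_le _) p.1)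
  unfold Family.ext
  rw [dif_pos h6]
  show (-1 : ℤ) ^ (i : ℕ) * ((-1 : ℤ) ^ M * Ψ (lst (f.remove i).1) p) = _
  rw [mul_left_comm]
  rfl

end Pool.Agent.Helper84.Coh
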