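import Pool.Agent.Helper84.Coh.Algebra
import Pool.Agent.Helper84.Coh.Decide

/-!
Trivialization of families for which the relevant colorings are Borel.
-/

namespace Pool.Agent.Helper84.Coh

open Set Filter Topology MeasureTheory

/-- join of all entries -/
def hj (a : ℕ → ℕ) : List (ℕ → ℕ) → ℕ → ℕ
  | [] => a
  | d :: ω => hj a ω ⊔ d

/-- increasing chain of partial joins, largest first -/
def cl (a : ℕ → ℕ) : List (ℕ → ℕ) → List (ℕ → ℕ)
  | [] => [a]
  | d :: ω => hj a (d :: ω) :: cl a ω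

lemma length_cl (a : ℕ → ℕ) (ω : List (ℕ → ℕ)) : (cl a ω).length = ω.length + 1 := by
  induction ω with
  | nil => rfl
  | cons d ω ih => simp [cl, ih]

lemma headD_cl (a : ℕ → ℕ) (ω : List (ℕ → ℕ)) : (cl a ω).headD 0 = hj a ω := by
  cases ω <;> rfl

lemma le_hj {a : ℕ → ℕ} {ω : List (ℕ → ℕ)} {x : ℕ → ℕ} (hx : x ∈ cl a ω) : x ≤ hj a ω := by
  induction ω with
  | nil => simp [cl] at hx; rw [hx]; exact le_rfl
  | cons d ω ih =>
    rcases List.mem_cons.1 hx with rfl | hx
    · exact le_rfl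
    · exact (ih hx).trans le_sup_left

lemma srt_cl (a : ℕ → ℕ) (ω : List (ℕ → ℕ)) : Srt (cl a ω) := by
  induction ω with
  | nil => simp [cl, Srt]
  | cons d ω ih =>
    refine List.pairwise_cons.2 ⟨fun x hx => ?_, ih⟩
    exact (le_hj hx).trans le_sup_left

lemma getLast?_cl (a : ℕ → ℕ) (ω : List (ℕ → ℕ)) : (cl a ω).getLast? = some a := by
  induction ω with
  | nil => rfl
  | cons d ω ih =>
    have h : cl a (d :: ω) = hj a (d :: ω) :: cl a ω := rfl
    rw [h, List.getLast?_cons, ih]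
    rfl

lemma exists_star_bound {J : Type} [Countable J] (f : J → ℕ → ℕ) : ∃ g, ∀ j, LeStar (f j) g := by
  rcases isEmpty_or_nonempty J with h | h
  · exact ⟨0, fun j => h.elim j⟩
  obtain ⟨e, he⟩ := exists_surjective_nat J
  refine ⟨fun k => (Finset.range (k+1)).sup (fun i => f (e i) k), fun j => ?_⟩
  obtain ⟨i, rfl⟩ := he j
  refine eventually_atTop.2 ⟨i, fun k hk => ?_⟩
  exact Finset.le_sup (f := fun i => f (e i) k) (Finset.mem_range.2 (by omega))

lemma pigeon {J : Type} [Countable J] (dat : (ℕ → ℕ) → J) :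
    ∃ j, ∀ f, ∃ a, dat a = j ∧ LeStar f a := by
  by_contra hcon
  push Not at hcon
  choose f hf using hcon
  obtain ⟨g, hg⟩ := exists_star_bound f
  exact hf (dat g) g rfl (hg _)

/-- common values of the vertices below the stem lengths -/
def WW (u : List ℕ) (ts : List (List ℕ)) : ℕ → ℕ → ℕ
  | 0, k => u.getD k 0
  | i+1, k => max (WW u ts i k) ((ts.getD i []).getD k 0)

theorem list_main (M : ℕ) (Φ : List (ℕ → ℕ) → ℕ × ℕ → ℤ)
    (hcoh : ∀ v, Srt v → v.length = M + 2 → ∀ m, v.getLast? = some m → ev Φ (bd v) ∈ ZF m)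
    (hmeas : ∀ (a : ℕ → ℕ) (F : Finset (ℕ × ℕ)), MeasurableSet {ω : Om (M+1) |
      {p | p ∈ Ig a ∧ ev Φ (bd (cl a (toL (M+1) ω))) p ≠ 0} = (F : Set (ℕ × ℕ))}) :
    ∃ Ψ : List (ℕ → ℕ) → ℕ × ℕ → ℤ, ∀ l, Srt l → l.length = M + 1 → ∀ m, l.getLast? = some m →
      Φ l - ev Ψ (bd l) ∈ ZF m := by
  classical
  have hdec := fun a => decision (M+1) (J := Finset (ℕ × ℕ))
    (fun F ω => {p | p ∈ Ig a ∧ ev Φ (bd (cl a ω)) p ≠ 0} = (F : Set (ℕ × ℕ))) (hmeas a) (by
      intro ω hω
      have h1 : {p | p ∈ Ig a ∧ ev Φ (bd (cl a ω)) p ≠ 0}.Finite :=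
        hcoh (cl a ω) (srt_cl a ω) (by rw [length_cl, hω]) a (getLast?_cl a ω)
      exact ⟨h1.toFinset, by simp⟩)
  choose Fa ta hlen C hC0 hC1 hC2 using hdec
  let dat : (ℕ → ℕ) → Finset (ℕ × ℕ) × List (List ℕ) × List ℕ := fun a =>
    (Fa a, (List.range (M+1)).map (ta a), res a (ta a 0).length)
  obtain ⟨⟨F, ts, u⟩, hj0⟩ := pigeon dat
  choose a ha1 ha2 using hj0
  have hFa : ∀ f, Fa (a f) = F := fun f => (Prod.ext_iff.1 (ha1 f)).1
  have hts : ∀ f i, i < M + 1 → ta (a f) i = ts.getD i [] := by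
    intro f i hi
    have h1 : (List.range (M+1)).map (ta (a f)) = ts := (Prod.ext_iff.1 (Prod.ext_iff.1 (ha1 f)).2).1
    rw [← h1]
    simp [hi]
  have hu : ∀ f, res (a f) (ta (a f) 0).length = u :=
    fun f => (Prod.ext_iff.1 (Prod.ext_iff.1 (ha1 f)).2).2
  let P : Set (List (ℕ → ℕ)) := {v | ∃ f, ∃ ω ∈ C (a f), ω.length ≤ M + 1 ∧ v = cl (a f) ω ∧
    (ω.length < M + 1 → ∀ k, k < (ts.getD ω.length []).length →
      hj (a f) ω k = WW u ts ω.length k)}
  refine algebra_part M Φ F F.finite_toSet a ha2 P ?_ ?_ ?_ ?_ hcoh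
  · intro f
    refine ⟨f, [], hC0 _, by simp, rfl, ?_⟩
    intro _ k hk
    show a f k = u.getD k 0
    have h1 := hts f 0 (by omega)
    have h2 : k < (ts.getD 0 []).length := hk
    have hul : u.length = (ts.getD 0 []).length := by rw [← hu f, length_res, h1]
    have h3 : res (a f) u.length = u := by
      have h4 := hu f
      rw [h1, ← hul] at h4
      exact h4
    exact res_getD h3 (by omega)
  · intro V i hi1 hi2 hV
    obtain ⟨q, rfl⟩ := Nat.exists_eq_add_of_le hi1
    have hq : q < M + 1 := by omega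
    have hall : ∀ᶠ d in G (ts.getD q []), ∀ v ∈ V,
        ((∃ f, ∃ ω ∈ C (a f), ω.length = q ∧ v = cl (a f) ω ∧
          (∀ k, k < (ts.getD q []).length → hj (a f) ω k = WW u ts q k) ∧
          d.val :: ω ∈ C (a f)) ∧
        (res d.val (ts.getD q []).length = ts.getD q [] ∧
          ∀ k, (ts.getD q []).length ≤ k → v.headD 0 k ≤ d.val k)) := by
      rw [Filter.eventually_all_finset]
      intro v hv
      refine Filter.Eventually.and ?_ (eventually_G_stem _ _)
      obtain ⟨⟨f, ω, hω, hle, hvω, hinv⟩, hvl⟩ := hV v hv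
      have hωl : ω.length = q := by
        rw [hvω, length_cl] at hvl; omega
      have h1 := hC1 (a f) ω hω (by omega)
      rw [hωl, hts f q hq] at h1
      filter_upwards [h1] with d hd
      refine ⟨f, ω, hω, hωl, hvω, ?_, hd⟩
      intro k hk
      have := hinv (by omega) k (by rw [hωl]; exact hk)
      rwa [hωl] at this
    obtain ⟨d, hd⟩ := hall.exists
    refine ⟨fun k => if k < (ts.getD q []).length then WW u ts (q+1) k else d.val k, ?_⟩
    intro v hv
    obtain ⟨⟨f, ω, hω, hωl, hvω, hinv, hdC⟩, hres, hbig⟩ := hd v hv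
    have hhead : v.headD 0 = hj (a f) ω := by rw [hvω, headD_cl]
    have hy : (fun k => if k < (ts.getD q []).length then WW u ts (q+1) k else d.val k) =
        hj (a f) (d.val :: ω) := by
      funext k
      show _ = max (hj (a f) ω k) (d.val k)
      by_cases hk : k < (ts.getD q []).length
      · simp only [hk, if_true]
        rw [hinv k hk, res_getD hres hk]
        rfl
      · simp only [hk, if_false]
        have := hbig k (by omega)
        rw [hhead] at this
        exact (max_eq_right this).symm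
    refine ⟨f, d.val :: ω, hdC, by simp [hωl]; omega, ?_, ?_⟩
    · rw [hy, hvω]; rfl
    · intro hlt k hk
      rw [← hy]
      have hl2 : (d.val :: ω).length = q + 1 := by simp [hωl]
      rw [hl2] at hk hlt ⊢
      have h3 : (ts.getD (q+1) []).length ≤ (ts.getD q []).length := by
        have := hlen (a f) q (q+1) (by omega) hlt
        rwa [hts f (q+1) hlt, hts f q hq] at this
      have hk' : k < (ts.getD q []).length := by omega
      simp only [hk', if_true]
  · rintro v ⟨f, ω, _, _, rfl, _⟩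
    exact srt_cl _ _
  · rintro v ⟨f, ω, hω, hle, rfl, _⟩ hvl m hm p hp hpF
    rw [getLast?_cl] at hm
    obtain rfl : a f = m := by simpa using hm
    rw [length_cl] at hvl
    have h1 := hC2 (a f) ω hω (by omega)
    rw [hFa f] at h1
    by_contra hne
    apply hpF
    rw [← h1]
    exact ⟨hp, hne⟩

end Pool.Agent.Helper84.Coh
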