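import Pool.Agent.Helper84.Coh.Bar

/-!
Abstract ccc measure-algebra-like spaces and the product step.
-/

namespace Pool.Agent.Helper84.Coh

open Set Filter Topology MeasureTheory

/-- A σ-algebra together with a countably complete filter, such that the σ-algebra is complete and
the countable chain condition holds. -/
structure GSpace (Ω : Type) where
  /-- the σ-algebra -/
  m : MeasurableSpace Ω
  /-- the filter of sets of full measure -/
  l : Filter Ω
  ci : CountableInterFilter l
  complete : ∀ A B : Set Ω, MeasurableSet[m] A → A =ᶠ[l] B → MeasurableSet[m] B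
  ccc : ∀ S : Set (Set Ω), (∀ A ∈ S, MeasurableSet[m] A ∧ ¬ ∀ᶠ x in l, x ∉ A) →
    S.PairwiseDisjoint id → S.Countable

variable {Ω : Type}

lemma GSpace.exists_kernel (g : GSpace Ω) (E : Set Ω) :
    ∃ M, MeasurableSet[g.m] M ∧ M ⊆ E ∧ ∀ C, MeasurableSet[g.m] C → C ⊆ E →
      ∀ᶠ x in g.l, x ∈ C → x ∈ M := by
  let P : Set (Set (Set Ω)) := {S | (∀ A ∈ S, MeasurableSet[g.m] A ∧ (¬ ∀ᶠ x in g.l, x ∉ A) ∧ A ⊆ E) ∧
    S.PairwiseDisjoint id}
  obtain ⟨S, hS⟩ : ∃ S, Maximal (· ∈ P) S := by
    apply zorn_subset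
    intro c hc hchain
    refine ⟨⋃₀ c, ⟨?_, ?_⟩, fun s hs => subset_sUnion_of_mem hs⟩
    · rintro A ⟨s, hs, hA⟩
      exact (hc hs).1 A hA
    · rintro A ⟨s, hs, hA⟩ B ⟨s', hs', hB⟩ hne
      rcases hchain.total hs hs' with h | h
      · exact (hc hs').2 (h hA) hB hne
      · exact (hc hs).2 hA (h hB) hne
  have hcount : S.Countable := g.ccc S (fun A hA => ⟨(hS.prop.1 A hA).1, (hS.prop.1 A hA).2.1⟩) hS.prop.2
  have hM : MeasurableSet[g.m] (⋃₀ S) :=
    @MeasurableSet.sUnion Ω g.m S hcount (fun A hA => (hS.prop.1 A hA).1)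
  refine ⟨⋃₀ S, hM, sUnion_subset fun A hA => (hS.prop.1 A hA).2.2, ?_⟩
  intro C hC hCE
  by_contra hcon
  have hD : MeasurableSet[g.m] (C \ ⋃₀ S) := @MeasurableSet.diff Ω g.m _ _ hC hM
  have hpos : ¬ ∀ᶠ x in g.l, x ∉ C \ ⋃₀ S := by
    intro h
    apply hcon
    filter_upwards [h] with x hx hxC
    by_contra hxS
    exact hx ⟨hxC, hxS⟩
  have hins : insert (C \ ⋃₀ S) S ∈ P := by
    refine ⟨?_, ?_⟩
    · rintro A (rfl | hA)
      · exact ⟨hD, hpos, sdiff_subset.trans hCE⟩
      · exact hS.prop.1 A hA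
    · rw [pairwiseDisjoint_insert]
      refine ⟨hS.prop.2, fun A hA _ => ?_⟩
      simp only [id]
      rw [disjoint_left]
      rintro x hx hxA
      exact hx.2 ⟨A, hA, hxA⟩
  have h1 : C \ ⋃₀ S ∈ S := hS.le_of_ge hins (subset_insert _ _) (mem_insert _ _)
  apply hpos
  refine Eventually.of_forall fun x hx => hx.2 ⟨_, h1, hx⟩

lemma GSpace.measurable_bar (g : GSpace Ω) (S : List ℕ → Set Ω)
    (hS : ∀ t, MeasurableSet[g.m] (S t)) (t : List ℕ) :
    MeasurableSet[g.m] {x | Bar {s | x ∈ S s} t} := by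
  have hk := fun t => g.exists_kernel {x | Bar {s | x ∈ S s} t}
  choose M hM1 hM2 hM3 using hk
  have hci := g.ci
  have h1 : ∀ᶠ x in g.l, ∀ t, x ∈ S t → x ∈ M t := by
    rw [eventually_countable_forall]
    intro t
    exact hM3 t (S t) (hS t) (fun x hx => Bar.base _ hx)
  have h2 : ∀ᶠ x in g.l, ∀ t, (∀ m, ∃ k, m ≤ k ∧ x ∈ M (t ++ [k])) → x ∈ M t := by
    rw [eventually_countable_forall]
    intro t
    have hmeas : MeasurableSet[g.m] {x | ∀ m, ∃ k, m ≤ k ∧ x ∈ M (t ++ [k])} := by
      have : {x | ∀ m, ∃ k, m ≤ k ∧ x ∈ M (t ++ [k])} =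
          ⋂ m : ℕ, ⋃ k : {k : ℕ // m ≤ k}, M (t ++ [k.1]) := by
        ext x; simp
      rw [this]
      exact @MeasurableSet.iInter Ω ℕ g.m _ _ (fun m => @MeasurableSet.iUnion Ω _ g.m _ _
        (fun k => hM1 _))
    refine hM3 t _ hmeas ?_
    intro x hx
    have hx' : ∀ m, ∃ k, m ≤ k ∧ x ∈ M (t ++ [k]) := hx
    choose k hk1 hk2 using hx'
    exact Bar.step t k hk1 (fun m => hM2 _ (hk2 m))
  have h3 : M t =ᶠ[g.l] {x | Bar {s | x ∈ S s} t} := by
    filter_upwards [h1, h2] with x hx1 hx2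
    have : ∀ t, Bar {s | x ∈ S s} t → x ∈ M t := by
      intro t ht
      induction ht with
      | base t h => exact hx1 t h
      | step t k hk _ ih => exact hx2 t (fun m => ⟨k m, hk m, ih m⟩)
    exact propext ⟨fun h => hM2 t h, fun h => this t h⟩
  exact g.complete _ _ (hM1 t) h3

/-- the section of a set -/
def sec (A : Set (Ω × LN)) (x : Ω) : Set LN := {y | (x, y) ∈ A}

/-- measurability in the product -/
def GSpace.PM (g : GSpace Ω) (A : Set (Ω × LN)) : Prop :=
  (∀ᶠ x in g.l, BaireMeasurableSet (sec A x)) ∧ ∀ t, MeasurableSet[g.m] {x | sec A x ∈ G t}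

lemma GSpace.PM_compl_iUnion (g : GSpace Ω) {ι : Type} [Countable ι] {A : ι → Set (Ω × LN)}
    (hA : ∀ i, g.PM (A i)) : g.PM (⋃ i, A i)ᶜ := by
  have hci := g.ci
  have hsec : ∀ x, sec (⋃ i, A i)ᶜ x = (⋃ i, sec (A i) x)ᶜ := by
    intro x; ext y; simp [sec]
  have hbp : ∀ᶠ x in g.l, ∀ i, BaireMeasurableSet (sec (A i) x) :=
    eventually_countable_forall.2 fun i => (hA i).1
  refine ⟨?_, fun t => ?_⟩
  · filter_upwards [hbp] with x hx
    rw [hsec]
    exact (BaireMeasurableSet.iUnion hx).compl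
  · have hm : MeasurableSet[g.m] {x | Bar {s | x ∈ ⋃ i, {x | sec (A i) x ∈ G s}} t} :=
      g.measurable_bar (fun s => ⋃ i, {x | sec (A i) x ∈ G s})
        (fun s => @MeasurableSet.iUnion Ω _ g.m _ _ (fun i => (hA i).2 s)) t
    refine g.complete _ _ (@MeasurableSet.compl Ω _ g.m hm) ?_
    filter_upwards [hbp] with x hx
    refine propext ?_
    show ¬ Bar {s | x ∈ ⋃ i, {x | sec (A i) x ∈ G s}} t ↔ sec (⋃ i, A i)ᶜ x ∈ G t
    rw [hsec, compl_iUnion_mem_G hx t]
    simp only [mem_iUnion, mem_ofPred_eq]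

lemma GSpace.PM_compl (g : GSpace Ω) {A : Set (Ω × LN)} (hA : g.PM A) : g.PM Aᶜ := by
  have := g.PM_compl_iUnion (ι := Unit) (A := fun _ => A) (fun _ => hA)
  rwa [iUnion_const] at this

/-- The product step. -/
def GSpace.step (g : GSpace Ω) : GSpace (Ω × LN) where
  m :=
    { MeasurableSet' := g.PM
      measurableSet_empty := by
        have := g.PM_compl (A := univ) ?_
        · simpa using this
        · have := g.PM_compl_iUnion (ι := Empty) (A := fun _ => univ) (fun i => i.elim)
          simpa using this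
      measurableSet_compl := fun A hA => g.PM_compl hA
      measurableSet_iUnion := fun A hA => by
        have := g.PM_compl (g.PM_compl_iUnion hA)
        rwa [compl_compl] at this }
  l := g.l.curry (residual LN)
  ci := by
    have := g.ci
    infer_instance
  complete := by
    rintro A B ⟨hA1, hA2⟩ hAB
    have hAB' : ∀ᶠ x in g.l, sec A x =ᶠ[residual LN] sec B x := by
      have := Filter.eventually_curry_iff.1 hAB
      exact this
    refine ⟨?_, fun t => ?_⟩
    · filter_upwards [hA1, hAB'] with x h1 h2 using h1.congr h2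
    · refine g.complete _ _ (hA2 t) ?_
      filter_upwards [hAB'] with x hx
      refine propext ?_
      show sec A x ∈ G t ↔ sec B x ∈ G t
      have h3 : sec A x =ᶠ[G t] sec B x := hx.filter_mono (G_le_residual t)
      constructor
      · intro h
        filter_upwards [h, h3] with y h1 h2
        have h4 : sec A x y = sec B x y := h2
        have : sec B x y := by rw [← h4]; exact h1
        exact this
      · intro h
        filter_upwards [h, h3] with y h1 h2
        have h4 : sec A x y = sec B x y := h2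
        have : sec A x y := by rw [h4]; exact h1
        exact this
  ccc := by
    intro S hS hdisj
    have key : ∀ A ∈ S, ∃ t, ¬ ∀ᶠ x in g.l, x ∉ {x | sec A x ∈ G t} := by
      intro A hA
      by_contra hcon
      push Not at hcon
      have hci := g.ci
      have h1 : ∀ᶠ x in g.l, ∀ t, sec A x ∉ G t := eventually_countable_forall.2 hcon
      apply (hS A hA).2
      refine Filter.eventually_curry_iff.2 ?_
      have hbp := (hS A hA).1.1
      filter_upwards [h1, hbp] with x hx hb
      by_contra hc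
      obtain ⟨y, _, k, _, hG⟩ := exists_large (U := univ) hb (fun h => hc (by
        filter_upwards [h] with y hy using hy (mem_univ _))) 0
      exact hx _ hG
    choose! t ht using key
    have hcov : S ⊆ ⋃ s : List ℕ, {A ∈ S | t A = s} := by
      intro A hA
      exact mem_iUnion.2 ⟨t A, hA, rfl⟩
    refine Set.Countable.mono hcov (countable_iUnion fun s => ?_)
    -- fixed stem
    let f : Set (Ω × LN) → Set Ω := fun A => {x | sec A x ∈ G s}
    have hdis : ∀ A ∈ {A ∈ S | t A = s}, ∀ B ∈ {A ∈ S | t A = s}, A ≠ B → Disjoint (f A) (f B) := by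
      rintro A ⟨hA, _⟩ B ⟨hB, _⟩ hne
      rw [disjoint_left]
      intro x hxA hxB
      refine mem_G_inter_false hxA hxB ?_
      rw [eq_empty_iff_forall_notMem]
      rintro y ⟨hy1, hy2⟩
      exact (disjoint_left.1 (hdisj hA hB hne)) hy1 hy2
    have hpos : ∀ A ∈ {A ∈ S | t A = s}, ¬ ∀ᶠ x in g.l, x ∉ f A := by
      rintro A ⟨hA, rfl⟩
      exact ht A hA
    have hne : ∀ A ∈ {A ∈ S | t A = s}, (f A).Nonempty := by
      intro A hA
      by_contra hcon
      rw [not_nonempty_iff_eq_empty] at hcon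
      apply hpos A hA
      rw [hcon]
      simp
    have hinj : InjOn f {A ∈ S | t A = s} := by
      intro A hA B hB hAB
      by_contra hne'
      have h1 := hdis A hA B hB hne'
      rw [← hAB, disjoint_self] at h1
      exact (hne A hA).ne_empty h1
    have hc : (f '' {A ∈ S | t A = s}).Countable := by
      apply g.ccc
      · rintro _ ⟨A, hA, rfl⟩
        exact ⟨((hS A hA.1).1).2 s, hpos A hA⟩
      · rintro _ ⟨A, hA, rfl⟩ _ ⟨B, hB, rfl⟩ hAB
        exact hdis A hA B hB (fun h => hAB (by rw [h]))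
    exact countable_of_injective_of_countable_image hinj hc

end Pool.Agent.Helper84.Coh
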